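import Pool.Agent.Helper73.RFn.GoalsH

/-!
PROJECT RFn, packet DBD: distances are bounded, triangle inequality, etc.
-/

set_option autoImplicit false

open scoped RealInnerProductSpace

open Pool.Agent.Helper47.RFn Pool.Agent.Helper73.RFn

namespace Pool.Agent.Helper64.RFn.DBD

variable {n : ℕ}

theorem unit_ne_zero {x : EE n} (hx : ‖x‖ = 1) : x ≠ 0 := by
  rintro rfl
  simp at hx

theorem entries_bdd {G : MF n} (hG : IsMetric G) :
    ∃ C : ℝ, 0 ≤ C ∧ ∀ x : EE n, ‖x‖ = 1 → ∀ i j, |G x i j| ≤ C := by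
  have hsub : Metric.sphere (0 : EE n) 1 ⊆ {0}ᶜ := by
    intro x hx
    rw [mem_sphere_zero_iff_norm] at hx
    exact unit_ne_zero hx
  have h1 : ∀ i j, ∃ C : ℝ, ∀ x ∈ Metric.sphere (0 : EE n) 1, ‖G x i j‖ ≤ C := fun i j =>
    (isCompact_sphere (0 : EE n) 1).exists_bound_of_continuousOn
      ((hG.sm i j).cd.continuousOn.mono hsub)
  choose C hC using h1
  refine ⟨∑ i, ∑ j, |C i j|, Finset.sum_nonneg fun i _ => Finset.sum_nonneg fun j _ =>
    abs_nonneg _, ?_⟩
  intro x hx i j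
  have h2 := hC i j x (by rw [mem_sphere_zero_iff_norm]; exact hx)
  rw [Real.norm_eq_abs] at h2
  have h3 : |C i j| ≤ ∑ j, |C i j| :=
    Finset.single_le_sum (f := fun j => |C i j|) (fun j _ => abs_nonneg _) (Finset.mem_univ j)
  have h4 : ∑ j, |C i j| ≤ ∑ i, ∑ j, |C i j| :=
    Finset.single_le_sum (f := fun i => ∑ j, |C i j|)
      (fun i _ => Finset.sum_nonneg fun j _ => abs_nonneg _) (Finset.mem_univ i)
  exact h2.trans ((le_abs_self _).trans (h3.trans h4))

/-- speed bound -/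
theorem ip_le {G : MF n} {C : ℝ} {x : EE n} (hC0 : 0 ≤ C) (hC : ∀ i j, |G x i j| ≤ C) (w : EE n) :
    Real.sqrt (ip G x (fun i => w i) (fun i => w i)) ≤ Real.sqrt C * ((n : ℝ) + 1) * ‖w‖ := by
  have h1 : ip G x (fun i => w i) (fun i => w i) ≤ C * (((n : ℝ) + 1) * ‖w‖) ^ 2 := by
    unfold ip
    have hw : ∀ i, |w i| ≤ ‖w‖ := fun i => by
      have := PiLp.norm_apply_le w i
      rwa [Real.norm_eq_abs] at this
    calc ∑ i, ∑ j, G x i j * w i * w j ≤ ∑ i : Fin (n + 1), ∑ j : Fin (n + 1), C * ‖w‖ ^ 2 := by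
          refine Finset.sum_le_sum fun i _ => Finset.sum_le_sum fun j _ => ?_
          refine (le_abs_self _).trans ?_
          rw [abs_mul, abs_mul, mul_assoc, sq]
          exact mul_le_mul (hC i j) (mul_le_mul (hw i) (hw j) (abs_nonneg _) (norm_nonneg _))
            (mul_nonneg (abs_nonneg _) (abs_nonneg _)) hC0
      _ = C * (((n : ℝ) + 1) * ‖w‖) ^ 2 := by
          simp only [Finset.sum_const, Finset.card_univ, Fintype.card_fin, nsmul_eq_mul]
          push_cast
          ring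
  refine (Real.sqrt_le_sqrt h1).trans ?_
  rw [Real.sqrt_mul hC0, Real.sqrt_sq (by positivity), mul_assoc]

theorem speed_integrable {G : MF n} (hG : IsMetric G) {c : ℝ → EE n} {K : NNReal}
    (hc : LipschitzWith K c) (hn : ∀ t, ‖c t‖ = 1) (a b : ℝ) :
    IntervalIntegrable (speed G c) MeasureTheory.volume a b := by
  obtain ⟨C, hC0, hC⟩ := entries_bdd hG
  have hne : ∀ t, c t ≠ 0 := fun t => unit_ne_zero (hn t)
  have m1 : ∀ i j, Measurable (fun t => G (c t) i j) := by
    intro i j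
    apply Continuous.measurable
    rw [continuous_iff_continuousAt]
    intro t
    have h1 : ContinuousAt (fun x => G x i j) (c t) :=
      (hG.sm i j).cd.continuousOn.continuousAt (isOpen_compl_singleton.mem_nhds (hne t))
    exact ContinuousAt.comp (f := c) h1 hc.continuous.continuousAt
  have m2 : ∀ i, Measurable (fun t => deriv c t i) := by
    intro i
    have h1 : Continuous (fun w : EE n => w i) := by fun_prop
    exact h1.measurable.comp (measurable_deriv c)
  have m3 : Measurable (speed G c) := by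
    unfold speed ip
    apply Measurable.sqrt
    refine Finset.measurable_sum _ fun i _ => Finset.measurable_sum _ fun j _ => ?_
    exact ((m1 i j).mul (m2 i)).mul (m2 j)
  rw [intervalIntegrable_iff]
  refine MeasureTheory.IntegrableOn.of_bound measure_Ioc_lt_top m3.aestronglyMeasurable
    (Real.sqrt C * ((n : ℝ) + 1) * K) ?_
  refine Filter.Eventually.of_forall fun t => ?_
  rw [Real.norm_of_nonneg (show 0 ≤ speed G c t from Real.sqrt_nonneg _)]
  refine (ip_le hC0 (hC (c t) (hn t)) (deriv c t)).trans ?_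
  exact mul_le_mul_of_nonneg_left (norm_deriv_le_of_lipschitz hc) (by positivity)

theorem glen_nonneg (G : MF n) (c : ℝ → EE n) : 0 ≤ glen G c :=
  intervalIntegral.integral_nonneg zero_le_one fun t _ => Real.sqrt_nonneg _

theorem glen_le {G : MF n} (hG : IsMetric G) {C : ℝ} (hC0 : 0 ≤ C)
    (hC : ∀ x : EE n, ‖x‖ = 1 → ∀ i j, |G x i j| ≤ C) {c : ℝ → EE n} {K : NNReal}
    (hc : LipschitzWith K c) (hn : ∀ t, ‖c t‖ = 1) :
    glen G c ≤ Real.sqrt C * ((n : ℝ) + 1) * K := by
  unfold glen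
  have h1 : ∫ t in (0:ℝ)..1, speed G c t
      ≤ ∫ t in (0:ℝ)..1, Real.sqrt C * ((n : ℝ) + 1) * (K : ℝ) := by
    apply intervalIntegral.integral_mono_on zero_le_one (speed_integrable hG hc hn 0 1)
      intervalIntegrable_const
    intro t _
    refine (ip_le hC0 (hC (c t) (hn t)) (deriv c t)).trans ?_
    exact mul_le_mul_of_nonneg_left (norm_deriv_le_of_lipschitz hc) (by positivity)
  simpa using h1

theorem ip_smul (G : MF n) (x : EE n) (a : ℝ) (v : Fin (n + 1) → ℝ) :
    ip G x (fun i => a * v i) (fun i => a * v i) = a ^ 2 * ip G x v v := by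
  unfold ip
  rw [Finset.mul_sum]
  refine Finset.sum_congr rfl fun i _ => ?_
  rw [Finset.mul_sum]
  refine Finset.sum_congr rfl fun j _ => ?_
  ring

/-- concatenation of two curves through `x` -/
noncomputable def cat (c1 c2 : ℝ → EE n) (x : EE n) : ℝ → EE n :=
  fun t => c1 (min (2 * t) 1) + c2 (max (2 * t - 1) 0) - x

theorem cat_left {c1 c2 : ℝ → EE n} {x : EE n} (h2 : c2 0 = x) {t : ℝ}
    (ht : t ≤ 1 / 2) : cat c1 c2 x t = c1 (2 * t) := by
  unfold cat
  rw [min_eq_left (by linarith), max_eq_right (by linarith), h2, add_sub_cancel_right]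

theorem cat_right {c1 c2 : ℝ → EE n} {x : EE n} (h1 : c1 1 = x) {t : ℝ}
    (ht : 1 / 2 ≤ t) : cat c1 c2 x t = c2 (2 * t - 1) := by
  unfold cat
  rw [min_eq_right (by linarith), max_eq_left (by linarith), h1, add_sub_cancel_left]

theorem joins_cat {c1 c2 : ℝ → EE n} {p x y : EE n} (h1 : Joins c1 p x)
    (h2 : Joins c2 x y) : Joins (cat c1 c2 x) p y := by
  obtain ⟨⟨K1, hK1⟩, hn1, ha1, hb1⟩ := h1
  obtain ⟨⟨K2, hK2⟩, hn2, ha2, hb2⟩ := h2
  refine ⟨⟨2 * K1 + 2 * K2, ?_⟩, ?_, ?_, ?_⟩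
  · apply LipschitzWith.of_dist_le_mul
    intro t s
    rw [dist_eq_norm, dist_eq_norm]
    have e : cat c1 c2 x t - cat c1 c2 x s
        = (c1 (min (2 * t) 1) - c1 (min (2 * s) 1))
          + (c2 (max (2 * t - 1) 0) - c2 (max (2 * s - 1) 0)) := by
      unfold cat
      abel
    have h3 : ‖c1 (min (2 * t) 1) - c1 (min (2 * s) 1)‖ ≤ K1 * (2 * |t - s|) := by
      have h4 := hK1.dist_le_mul (min (2 * t) 1) (min (2 * s) 1)
      rw [dist_eq_norm, dist_eq_norm, Real.norm_eq_abs] at h4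
      refine h4.trans (mul_le_mul_of_nonneg_left ?_ K1.2)
      refine (abs_min_sub_min_le_max _ _ _ _).trans ?_
      rw [sub_self, abs_zero, max_eq_left (abs_nonneg _), ← mul_sub, abs_mul, abs_two]
    have h5 : ‖c2 (max (2 * t - 1) 0) - c2 (max (2 * s - 1) 0)‖ ≤ K2 * (2 * |t - s|) := by
      have h4 := hK2.dist_le_mul (max (2 * t - 1) 0) (max (2 * s - 1) 0)
      rw [dist_eq_norm, dist_eq_norm, Real.norm_eq_abs] at h4
      refine h4.trans (mul_le_mul_of_nonneg_left ?_ K2.2)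
      refine (abs_max_sub_max_le_max _ _ _ _).trans ?_
      rw [sub_self, abs_zero, max_eq_left (abs_nonneg _)]
      have : 2 * t - 1 - (2 * s - 1) = 2 * (t - s) := by ring
      rw [this, abs_mul, abs_two]
    rw [e]
    refine (norm_add_le _ _).trans ?_
    simp only [Real.norm_eq_abs]
    push_cast
    linarith
  · intro t
    rcases le_total t (1 / 2) with ht | ht
    · rw [cat_left ha2 ht]; exact hn1 _
    · rw [cat_right hb1 ht]; exact hn2 _
  · rw [cat_left ha2 (by norm_num)]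
    simpa using ha1
  · rw [cat_right hb1 (by norm_num)]
    have : (2 * 1 - 1 : ℝ) = 1 := by norm_num
    rw [this]
    exact hb2

theorem glen_cat {G : MF n} (hG : IsMetric G) {c1 c2 : ℝ → EE n} {p x y : EE n}
    (h1 : Joins c1 p x) (h2 : Joins c2 x y) :
    glen G (cat c1 c2 x) = glen G c1 + glen G c2 := by
  obtain ⟨⟨K, hK⟩, hn, -, -⟩ := joins_cat h1 h2
  unfold glen
  rw [← intervalIntegral.integral_add_adjacent_intervals
    (speed_integrable hG hK hn 0 (1 / 2)) (speed_integrable hG hK hn (1 / 2) 1)]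
  congr 1
  · have h3 : Set.EqOn (speed G (cat c1 c2 x)) (fun t => 2 * speed G c1 (2 * t))
        (Set.uIoo 0 (1 / 2)) := by
      intro t ht
      rw [Set.uIoo_of_le (by norm_num)] at ht
      have h4 : cat c1 c2 x =ᶠ[nhds t] fun s => c1 (2 * s) := by
        filter_upwards [Iio_mem_nhds ht.2] with s hs
        exact cat_left h2.2.2.1 (le_of_lt hs)
      simp only []
      unfold speed
      rw [h4.deriv_eq, h4.self_of_nhds, deriv_comp_mul_left]
      simp only [PiLp.smul_apply, smul_eq_mul]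
      rw [ip_smul, Real.sqrt_mul (sq_nonneg _), Real.sqrt_sq (by norm_num : (0:ℝ) ≤ 2)]
    rw [intervalIntegral.integral_congr_uIoo h3, intervalIntegral.integral_const_mul,
      intervalIntegral.integral_comp_mul_left (fun s => speed G c1 s) (by norm_num : (2:ℝ) ≠ 0)]
    simp
  · have h3 : Set.EqOn (speed G (cat c1 c2 x)) (fun t => 2 * speed G c2 (2 * t - 1))
        (Set.uIoo (1 / 2) 1) := by
      intro t ht
      rw [Set.uIoo_of_le (by norm_num)] at ht
      have h4 : cat c1 c2 x =ᶠ[nhds t] fun s => c2 (2 * s - 1) := by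
        filter_upwards [Ioi_mem_nhds ht.1] with s hs
        exact cat_right h1.2.2.2 (le_of_lt hs)
      have h5 : deriv (fun s => c2 (2 * s - 1)) t = (2 : ℝ) • deriv c2 (2 * t - 1) := by
        rw [deriv_comp_mul_left 2 (fun s => c2 (s - 1)) t, deriv_comp_sub_const]
      simp only []
      unfold speed
      rw [h4.deriv_eq, h4.self_of_nhds, h5]
      simp only [PiLp.smul_apply, smul_eq_mul]
      rw [ip_smul, Real.sqrt_mul (sq_nonneg _), Real.sqrt_sq (by norm_num : (0:ℝ) ≤ 2)]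
    rw [intervalIntegral.integral_congr_uIoo h3, intervalIntegral.integral_const_mul,
      intervalIntegral.integral_comp_mul_sub (fun s => speed G c2 s) (by norm_num : (2:ℝ) ≠ 0)]
    norm_num
    ring

/-- reversal -/
theorem joins_rev {c : ℝ → EE n} {x y : EE n} (h : Joins c x y) :
    Joins (fun t => c (1 - t)) y x := by
  obtain ⟨⟨K, hK⟩, hn, ha, hb⟩ := h
  refine ⟨⟨K, ?_⟩, fun t => hn _, by simpa using hb, by simpa using ha⟩
  apply LipschitzWith.of_dist_le_mul
  intro t s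
  refine (hK.dist_le_mul _ _).trans_eq ?_
  rw [Real.dist_eq, Real.dist_eq]
  congr 1
  rw [← abs_neg]
  congr 1
  ring

theorem glen_rev (G : MF n) (c : ℝ → EE n) : glen G (fun t => c (1 - t)) = glen G c := by
  unfold glen
  have h : ∀ t, speed G (fun t => c (1 - t)) t = speed G c (1 - t) := by
    intro t
    unfold speed
    rw [deriv_comp_const_sub]
    simp only [PiLp.neg_apply]
    have e := ip_smul G (c (1 - t)) (-1) (fun i => deriv c (1 - t) i)
    simp only [neg_one_mul] at e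
    rw [e]
    norm_num
  simp only [h]
  rw [intervalIntegral.integral_comp_sub_left (fun s => speed G c s)]
  norm_num

theorem gdist_bdd (G : MF n) (x y : EE n) : BddBelow {r | ∃ c, Joins c x y ∧ r = glen G c} := by
  refine ⟨0, ?_⟩
  rintro r ⟨c, -, rfl⟩
  exact glen_nonneg G c

theorem gdist_le_glen (G : MF n) {x y : EE n} {c : ℝ → EE n} (h : Joins c x y) :
    gdist G x y ≤ glen G c := csInf_le (gdist_bdd G x y) ⟨c, h, rfl⟩

theorem gdist_nonneg (G : MF n) (x y : EE n) : 0 ≤ gdist G x y := by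
  apply Real.sInf_nonneg
  rintro r ⟨c, -, rfl⟩
  exact glen_nonneg G c

theorem gdist_symm (G : MF n) (x y : EE n) : gdist G x y = gdist G y x := by
  unfold gdist
  congr 1
  ext r
  constructor
  · rintro ⟨c, hc, rfl⟩
    exact ⟨_, joins_rev hc, (glen_rev G c).symm⟩
  · rintro ⟨c, hc, rfl⟩
    exact ⟨_, joins_rev hc, (glen_rev G c).symm⟩

theorem exists_orth (hn : 1 ≤ n) (x : EE n) : ∃ w : EE n, ‖w‖ = 1 ∧ ⟪x, w⟫ = 0 := by
  have h1 : 0 < Module.finrank ℝ (Submodule.span ℝ {x})ᗮ := by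
    have h2 := Submodule.finrank_add_finrank_orthogonal (Submodule.span ℝ {x})
    have h3 : Module.finrank ℝ (Submodule.span ℝ {x}) ≤ 1 := by
      have := finrank_span_le_card (R := ℝ) ({x} : Set (EE n))
      simpa using this
    have h4 : Module.finrank ℝ (EE n) = n + 1 := by simp
    omega
  have h2 : Nontrivial (Submodule.span ℝ {x})ᗮ := Module.finrank_pos_iff.1 h1
  obtain ⟨w, hw⟩ := exists_ne (0 : (Submodule.span ℝ {x})ᗮ)
  have hw0 : (w : EE n) ≠ 0 := by simpa using hw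
  have hw1 : ⟪x, (w : EE n)⟫ = 0 :=
    (Submodule.mem_orthogonal_singleton_iff_inner_right.1 w.2)
  refine ⟨(‖(w : EE n)‖)⁻¹ • (w : EE n), ?_, ?_⟩
  · rw [norm_smul, norm_inv, norm_norm, inv_mul_cancel₀ (norm_ne_zero_iff.2 hw0)]
  · rw [inner_smul_right, hw1, mul_zero]

theorem arc_norm {x w : EE n} (hx : ‖x‖ = 1) (hw : ‖w‖ = 1) (hxw : ⟪x, w⟫ = 0) (a b : ℝ) :
    ‖a • x + b • w‖ ^ 2 = a ^ 2 + b ^ 2 := by
  rw [norm_add_sq_real, norm_smul, norm_smul, inner_smul_left, inner_smul_right, hxw, hx, hw]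
  simp

theorem exists_arc (hn : 1 ≤ n) {x y : EE n} (hx : ‖x‖ = 1) (hy : ‖y‖ = 1) :
    ∃ c : ℝ → EE n, LipschitzWith (Real.pi * ‖x - y‖ / 2).toNNReal c ∧ (∀ t, ‖c t‖ = 1) ∧
      c 0 = x ∧ c 1 = y := by
  set θ := Real.arccos ⟪x, y⟫ with hθ
  have hxy : |⟪x, y⟫| ≤ 1 := by
    have := abs_real_inner_le_norm x y
    rwa [hx, hy, one_mul] at this
  obtain ⟨hxy1, hxy2⟩ := abs_le.1 hxy
  have hcos : Real.cos θ = ⟪x, y⟫ := Real.cos_arccos hxy1 hxy2
  have hθ0 : 0 ≤ θ := Real.arccos_nonneg _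
  have hθπ : θ ≤ Real.pi := Real.arccos_le_pi _
  obtain ⟨w, hw, hxw, hyw⟩ : ∃ w : EE n, ‖w‖ = 1 ∧ ⟪x, w⟫ = 0 ∧
      y = Real.cos θ • x + Real.sin θ • w := by
    have e1 : ‖y - Real.cos θ • x‖ ^ 2 = Real.sin θ ^ 2 := by
      rw [norm_sub_sq_real, norm_smul, inner_smul_right, real_inner_comm, ← hcos, hx, hy,
        mul_one, Real.norm_eq_abs, sq_abs, Real.sin_sq]
      ring
    rcases eq_or_ne (Real.sin θ) 0 with h0 | h0
    · obtain ⟨w, hw, hxw⟩ := exists_orth hn x
      refine ⟨w, hw, hxw, ?_⟩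
      rw [h0] at e1 ⊢
      have e2 : y - Real.cos θ • x = 0 := by
        rw [← norm_eq_zero]
        exact pow_eq_zero_iff (two_ne_zero) |>.1 (by rw [e1]; ring)
      rw [zero_smul, add_zero]
      exact sub_eq_zero.1 e2
    · have hs : 0 < Real.sin θ := lt_of_le_of_ne (Real.sin_nonneg_of_nonneg_of_le_pi hθ0 hθπ)
        (Ne.symm h0)
      have e2 : ‖y - Real.cos θ • x‖ = Real.sin θ := by
        have := congrArg Real.sqrt e1
        rwa [Real.sqrt_sq (norm_nonneg _), Real.sqrt_sq hs.le] at this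
      refine ⟨(Real.sin θ)⁻¹ • (y - Real.cos θ • x), ?_, ?_, ?_⟩
      · rw [norm_smul, e2, norm_inv, Real.norm_of_nonneg hs.le, inv_mul_cancel₀ h0]
      · rw [inner_smul_right, inner_sub_right, inner_smul_right, real_inner_self_eq_norm_sq, hx,
          ← hcos]
        ring
      · rw [smul_smul, mul_inv_cancel₀ h0, one_smul]
        abel
  refine ⟨fun t => Real.cos (t * θ) • x + Real.sin (t * θ) • w, ?_, ?_, ?_, ?_⟩
  · have hd : ∀ t : ℝ, HasDerivAt (fun t => Real.cos (t * θ) • x + Real.sin (t * θ) • w)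
        ((-Real.sin (t * θ) * θ) • x + (Real.cos (t * θ) * θ) • w) t := by
      intro t
      have h1 : HasDerivAt (fun t : ℝ => t * θ) θ t := by
        simpa using (hasDerivAt_id t).mul_const θ
      exact ((h1.cos).smul_const x).add ((h1.sin).smul_const w)
    have hL : LipschitzWith θ.toNNReal (fun t => Real.cos (t * θ) • x + Real.sin (t * θ) • w) := by
      apply lipschitzWith_of_nnnorm_deriv_le (fun t => (hd t).differentiableAt)
      intro t
      rw [(hd t).deriv, ← NNReal.coe_le_coe, coe_nnnorm, Real.coe_toNNReal _ hθ0]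
      have h2 := arc_norm hx hw hxw (-Real.sin (t * θ) * θ) (Real.cos (t * θ) * θ)
      apply le_of_sq_le_sq _ hθ0
      rw [h2]
      apply le_of_eq
      linear_combination θ ^ 2 * Real.sin_sq_add_cos_sq (t * θ)
    refine hL.weaken ?_
    apply Real.toNNReal_le_toNNReal
    -- ‖x - y‖ = 2 sin (θ/2) ≥ 2 θ / π
    have h3 : ‖x - y‖ ^ 2 = (2 * Real.sin (θ / 2)) ^ 2 := by
      rw [norm_sub_sq_real, hx, hy, ← hcos]
      have h4 := Real.cos_two_mul (θ / 2)
      have h5 := Real.sin_sq_add_cos_sq (θ / 2)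
      rw [show 2 * (θ / 2) = θ by ring] at h4
      rw [h4]
      linear_combination (-4 : ℝ) * h5
    have h6 : 0 ≤ Real.sin (θ / 2) :=
      Real.sin_nonneg_of_nonneg_of_le_pi (by linarith) (by linarith)
    have h7 : ‖x - y‖ = 2 * Real.sin (θ / 2) := by
      have := congrArg Real.sqrt h3
      rwa [Real.sqrt_sq (norm_nonneg _), Real.sqrt_sq (by linarith)] at this
    have h8 := Real.mul_le_sin (x := θ / 2) (by linarith) (by linarith)
    rw [h7]
    have hπ := Real.pi_pos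
    have h9 : Real.pi * (2 / Real.pi * (θ / 2)) = θ := by field_simp
    nlinarith [mul_le_mul_of_nonneg_left h8 hπ.le]
  · intro t
    have h2 := arc_norm hx hw hxw (Real.cos (t * θ)) (Real.sin (t * θ))
    rw [Real.cos_sq_add_sin_sq] at h2
    have := congrArg Real.sqrt h2
    rwa [Real.sqrt_sq (norm_nonneg _), Real.sqrt_one] at this
  · simp
  · simp only [one_mul]
    exact hyw.symm

theorem gdist_le {G : MF n} (hn : 1 ≤ n) (hG : IsMetric G) :
    ∃ C : ℝ, 0 ≤ C ∧ ∀ x y : EE n, ‖x‖ = 1 → ‖y‖ = 1 → gdist G x y ≤ C * ‖x - y‖ := by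
  obtain ⟨C, hC0, hC⟩ := entries_bdd hG
  refine ⟨Real.sqrt C * ((n : ℝ) + 1) * (Real.pi / 2), ?_, ?_⟩
  · have := Real.pi_pos
    positivity
  · intro x y hx hy
    obtain ⟨c, hc, hcn, hc0, hc1⟩ := exists_arc hn hx hy
    refine (gdist_le_glen G ⟨⟨_, hc⟩, hcn, hc0, hc1⟩).trans ?_
    refine (glen_le hG hC0 hC hc hcn).trans_eq ?_
    rw [Real.coe_toNNReal _ (by have := Real.pi_pos; positivity)]
    ring

theorem dbd : DbdStmt := by
  intro n G hn hG
  obtain ⟨C, hC0, hC⟩ := gdist_le hn hG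
  have hB : ∀ x y : EE n, ‖x‖ = 1 → ‖y‖ = 1 → gdist G x y ≤ C * 2 := by
    intro x y hx hy
    refine (hC x y hx hy).trans (mul_le_mul_of_nonneg_left ?_ hC0)
    refine (norm_sub_le _ _).trans ?_
    rw [hx, hy]
    norm_num
  have hJ : ∀ x y : EE n, ‖x‖ = 1 → ‖y‖ = 1 → ∃ c, Joins c x y := by
    intro x y hx hy
    obtain ⟨c, hc, hcn, hc0, hc1⟩ := exists_arc hn hx hy
    exact ⟨c, ⟨_, hc⟩, hcn, hc0, hc1⟩
  refine ⟨⟨C * 2, hB⟩, gdist_nonneg G, ?_, hJ, gdist_symm G, ?_, ?_,
    fun x y c h => gdist_le_glen G h, ⟨C, hC⟩⟩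
  · intro x y hx hy
    apply le_csSup
    · refine ⟨C * 2, ?_⟩
      rintro r ⟨x, y, hx, hy, rfl⟩
      exact hB x y hx hy
    · exact ⟨x, y, hx, hy, rfl⟩
  · intro x hx
    apply le_antisymm _ (gdist_nonneg G x x)
    have := hC x x hx hx
    simpa using this
  · intro x y z hx hy hz
    obtain ⟨c1, hc1⟩ := hJ x y hx hy
    obtain ⟨c2, hc2⟩ := hJ y z hy hz
    have key : ∀ a b : ℝ, a ∈ {r | ∃ c, Joins c x y ∧ r = glen G c} →
        b ∈ {r | ∃ c, Joins c y z ∧ r = glen G c} → gdist G x z ≤ a + b := by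
      rintro a b ⟨c, hc, rfl⟩ ⟨d, hd, rfl⟩
      rw [← glen_cat hG hc hd]
      exact gdist_le_glen G (joins_cat hc hd)
    have h1 : gdist G x z - gdist G y z ≤ gdist G x y := by
      refine le_csInf (s := {r | ∃ c, Joins c x y ∧ r = glen G c}) ⟨_, c1, hc1, rfl⟩ ?_
      intro a ha
      have h2 : gdist G x z - a ≤ gdist G y z := by
        refine le_csInf (s := {r | ∃ c, Joins c y z ∧ r = glen G c}) ⟨_, c2, hc2, rfl⟩ ?_
        intro b hb
        linarith [key a b ha hb]
      linarith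
    linarith

end Pool.Agent.Helper64.RFn.DBD
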