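import Pool.Agent.Helper64.RFn.GoalsL

/-! FFGn: the volume bound in the language of CoreN (from FINn, CONn, FCBn). -/

open MeasureTheory Set Matrix

open scoped RealInnerProductSpace

namespace Pool.Agent.Helper64.RFn

open Pool.Agent.Helper47.RFn (EE MF pd Hom0 Sm IsMetric cyl Chr Rup Rm ip gvol integ)

lemma det_clm {k : ℕ} (M : Matrix (Fin k) (Fin k) ℝ) :
    (Matrix.toEuclideanCLM (𝕜 := ℝ) M : V k →L[ℝ] V k).det = M.det := by
  show LinearMap.det ((Matrix.toEuclideanCLM (𝕜 := ℝ) M : V k →L[ℝ] V k) : V k →ₗ[ℝ] V k) = M.det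
  rw [Matrix.coe_toEuclideanCLM_eq_toEuclideanLin, Matrix.toEuclideanLin_eq_toLin_orthonormal]
  exact LinearMap.det_toLin _ _

lemma Tm_norm {n : ℕ} {G A θ : MF n} (h : Cofr G A θ) (x : EE n) (v : V (n + 1)) :
    ‖Tm θ x v‖ ^ 2 = ip G x v v := by
  rw [EuclideanSpace.norm_sq_eq]
  have h1 : ∀ a, (Tm θ x v) a = ∑ i, θ x i a * v i := by
    intro a
    show ((θ x).transpose *ᵥ (v : Fin (n + 1) → ℝ)) a = _
    simp [Matrix.mulVec, dotProduct, Matrix.transpose_apply]
  have h2 : ∀ i j, G x i j = ∑ a, θ x i a * θ x j a := by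
    intro i j
    rw [h.gth x]
    simp [Matrix.mul_apply, Matrix.transpose_apply]
  unfold ip
  simp only [h2, h1, Real.norm_eq_abs, sq_abs]
  calc ∑ a, (∑ i, θ x i a * v i) ^ 2
      = ∑ a, ∑ i, ∑ j, (θ x i a * v i) * (θ x j a * v j) := by
        refine Finset.sum_congr rfl fun a _ => ?_
        rw [sq, Finset.sum_mul_sum]
    _ = ∑ i, ∑ a, ∑ j, (θ x i a * v i) * (θ x j a * v j) := Finset.sum_comm
    _ = ∑ i, ∑ j, ∑ a, (θ x i a * v i) * (θ x j a * v j) := by
        refine Finset.sum_congr rfl fun i _ => Finset.sum_comm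
    _ = ∑ i, ∑ j, (∑ a, θ x i a * θ x j a) * v i * v j := by
        refine Finset.sum_congr rfl fun i _ => Finset.sum_congr rfl fun j _ => ?_
        rw [Finset.sum_mul, Finset.sum_mul]
        refine Finset.sum_congr rfl fun a _ => ?_
        ring

lemma Tm_det {n : ℕ} {G A θ : MF n} (h : Cofr G A θ) (x : EE n) :
    |(Tm θ x).det| = Real.sqrt (G x).det := by
  unfold Tm
  rw [det_clm, Matrix.det_transpose, h.gth x, Matrix.det_mul, Matrix.det_transpose,
    Real.sqrt_mul_self_eq_abs]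

theorem ffgn (fin : FINn) (con : CONn) (fcb : FCBn) : FFGn := by
  intro n c0 C0 hn hc0 hC0
  obtain ⟨η, hη, H⟩ := fin (n + 1) c0 C0 (by omega) hc0 hC0
  have hK : 0 < ((n : ℝ) + 1) ^ 4 * C0 := by positivity
  refine ⟨η / (((n : ℝ) + 1) ^ 4 * C0), by positivity, ?_⟩
  intro G A θ hco hb hnr
  have hcurv := fcb n C0 (η / (((n : ℝ) + 1) ^ 4 * C0)) G A θ hco hC0.le (by positivity)
    (fun x hx v => (hb x hx v).2) hnr
  have hcb : CBd (Tm θ) (Bm G A θ) c0 C0 η := by
    refine ⟨con n G A θ hco, ?_, ?_, ?_⟩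
    · intro x hx v
      rw [Tm_norm hco, EuclideanSpace.norm_sq_eq]
      simp only [Real.norm_eq_abs, sq_abs]
      exact (hb x hx v).1
    · intro x hx v
      rw [Tm_norm hco, EuclideanSpace.norm_sq_eq]
      simp only [Real.norm_eq_abs, sq_abs]
      exact (hb x hx v).2
    · intro x hx u v
      have h1 := hcurv x hx u v
      have h2 : ((n : ℝ) + 1) ^ 4 * C0 * (η / (((n : ℝ) + 1) ^ 4 * C0)) = η := by
        field_simp
      rw [h2] at h1
      exact h1
  have h3 := H (Tm θ) (Bm G A θ) hcb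
  simp only [Tm_det hco] at h3
  unfold gvol integ
  have hn1 : (0 : ℝ) ≤ (n : ℝ) + 1 := by positivity
  calc ((n : ℝ) + 1) * (volume (Metric.ball (0 : EE n) 1)).toReal / 4
      = ((n : ℝ) + 1) * ((volume (Metric.ball (0 : V (n + 1)) 1)).toReal / 4) := by
        rw [mul_div_assoc]
    _ ≤ _ := mul_le_mul_of_nonneg_left h3 hn1

end Pool.Agent.Helper64.RFn
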