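import Pool.Agent.Helper64.RFn.GoalsL

/-!
PROJECT RFn, scaling of a metric of `S^n` in the formalism of CoreN: the metric `c g` has the matrix
`c (G - x̂ x̂ᵀ) + x̂ x̂ᵀ`.  The goal FFGs is the volume bound for `g = s * (almost round metric)`.
-/

open MeasureTheory Set Matrix

open scoped RealInnerProductSpace

namespace Pool.Agent.Helper64.RFn

open Pool.Agent.Helper47.RFn (EE MF pd Hom0 Sm IsMetric cyl Chr Rup Rm ip gvol Tan nn)

/-- `x̂ x̂ᵀ` (0 at the origin) -/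
noncomputable def rr {n : ℕ} (x : EE n) : Matrix (Fin (n + 1)) (Fin (n + 1)) ℝ :=
  Matrix.of fun i j => x i * x j / ‖x‖ ^ 2

/-- `x̂ x̂ᵀ + r (1 - x̂ x̂ᵀ)` off the origin, `r` times the identity at the origin -/
noncomputable def Sr {n : ℕ} (r : ℝ) (x : EE n) : Matrix (Fin (n + 1)) (Fin (n + 1)) ℝ :=
  rr x + r • (1 - rr x)

/-- the matrix of the metric `c g` -/
noncomputable def scl {n : ℕ} (c : ℝ) (G : MF n) : MF n := fun x => rr x + c • (G x - rr x)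

/-- **SCA1.** Scaling of the frame.
Proof.  x ≠ 0: rr x is the orthogonal projection onto x, G rr = rr G = rr (G x = x), so with r = sqrt c
(Sr r θ)(Sr r θ)ᵀ = Sr r G Sr r = rr + r² (G - rr); A Sr(1/r) Sr(r) θ = 1.  At x = 0 rr = 0 and the same
identities hold.  Smooth: x_i x_j/‖x‖² is Sm (value 0 at 0: Hom0 holds also at 0).
pos: `v·(rr + c (G - rr)) v = (x̂·v)² + c w·G w` with w = v - (x̂·v) x̂ (as G x̂ = x̂); rad: clear.
det: det (Sr r) = r^n for x ≠ 0 (eigenvalue 1 on x and r on its orthogonal complement;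
`Matrix.det_one_add_replicateCol_mul_replicateRow`-type lemma: det (r 1 + (1-r) x̂ x̂ᵀ)), so
det (scl c G) = (r^n)² det G.  gvol: the point 0 is a null set. -/
def SCA1 : Prop :=
  ∀ (n : ℕ) (c : ℝ) (G A θ : MF n), 0 < c → Cofr G A θ →
    Cofr (scl c G) (fun x => A x * Sr (1 / Real.sqrt c) x) (fun x => Sr (Real.sqrt c) x * θ x) ∧
    (∀ x, x ≠ 0 → (scl c G x).det = c ^ n * (G x).det) ∧
    gvol (scl c G) = Real.sqrt c ^ n * gvol G

/-- **SCA2.** The Levi-Civita connection and curvature of the cylinder metric do not change.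
Proof.  g' = cyl (scl c G) = c g - (c - 1) s⁻² x xᵀ... with g = cyl G, s = ‖x‖²: g' = c g + (1 - c) q,
q_ij = x_i x_j/s².  q = d(log ‖x‖)², p_i = x_i/s = ∂_i log‖x‖, q_ij = p_i p_j; ∂_i p_j symmetric.
For g: p is parallel, that is ∂_i p_j = ∑_l Chr g i j l p_l (as ∑_l Chr(cyl G)_ij^l x_l/s: by CYCn and
CHRn (c') ∑ x_l Chr G i j l = δ_ij - G_ij, so ∑_l Chr g i j l x_l = δ_ij - G_ij - (2 x_i x_j/s - G_ij)
= δ_ij - 2 x_i x_j/s = s ∂_i p_j).  Lowered Christoffel symbols of q: (∂_i q_jl + ∂_j q_il - ∂_l q_ij)/2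
= (∂_i p_j) p_l.  Those of g': c ∑_m C_ij^m g_ml + (1-c) (∂_i p_j) p_l
= c ∑_m C_ij^m g_ml + (1-c) ∑_m C_ij^m p_m p_l = ∑_m C_ij^m g'_ml, so Chr g' = C = Chr g (g' is
invertible).  So Rup is the same (both are equal near x).
Frame: F' = A Sr(1/r), ∑ Rm(g') F' F' F' F' : Rm(g')_ijkl = ∑_m Rup_ijk^m g'_ml and
∑_m Rup_ijk^m p_m = 0 (p parallel: the curvature annihilates it; or CYRn + CHRn: contract with x), so
Rm(g') = c Rm(g); contraction of Rup with x in any of the slots i, j, k vanishes too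
(slots i, j: CYRn and the cone; slot k: first Bianchi or antisymmetry in the last two), so
each F' may be replaced by (1/r) A: total c r⁻⁴ = 1/c. -/
def SCA2 : Prop :=
  ∀ (n : ℕ) (c : ℝ) (G A θ : MF n), 0 < c → Cofr G A θ → ∀ x, x ≠ 0 →
    (∀ i j k, Chr (cyl (scl c G)) i j k x = Chr (cyl G) i j k x) ∧
    (∀ i j k l, Rup (cyl (scl c G)) i j k l x = Rup (cyl G) i j k l x) ∧
    ∀ a b d e, ∑ i, ∑ j, ∑ k, ∑ l, Rm (cyl (scl c G)) i j k l x
        * (A x * Sr (1 / Real.sqrt c) x) a i * (A x * Sr (1 / Real.sqrt c) x) b j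
        * (A x * Sr (1 / Real.sqrt c) x) d k * (A x * Sr (1 / Real.sqrt c) x) e l
      = 1 / c * ∑ i, ∑ j, ∑ k, ∑ l, Rm (cyl G) i j k l x * A x a i * A x b j * A x d k * A x e l

/-- **RAD0.** The radial direction is in the kernel of the curvature of the cylinder metric
(from CHRn, CYCn, CYRn).
Proof.  slot l (fourth, lowered): ∑_m Rup_ijk^m p_m = 0 as p_i = x_i/‖x‖² satisfies
∂_i p_j = ∑_l Chr g i j l p_l (see SCA2): differentiate and antisymmetrise (Ricci identity).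
slot k: Rm_ijkl = - Rm_ijlk (curvature of a metric connection; differentiate
∂_j g_kl = ∑ C_jk^m g_ml + ∑ C_jl^m g_mk and antisymmetrise) and `∑_l g_ml x_l = x_m/‖x‖²`.
slots i, j: the vector field x is parallel for cyl G: δ_ik - ... `∑_j Chr g i j k x_j = -δ_ik` (CYCn), so
∑_k Rup_ijk^l x_k = 0 again, and for i: the Christoffel symbols are (-1)-homogeneous, the pair symmetry
Rm_ijkl = Rm_klij; or directly: ∑_i x_i Rup_ijk^l = ∑_i x_i ∂_i C_jk^l - ∑_i x_i ∂_j C_ik^l + ∑ (C_jk^m ∑_i x_i C_im^l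
- (∑_i x_i C_ik^m) C_jm^l) = -C_jk^l - (∂_j(-δ_kl) - C_jk^l) + (-C_jk^l + C_jk^l) = 0. -/
def RAD0 : Prop :=
  ∀ (n : ℕ) (G : MF n), IsMetric G → ∀ x, x ≠ 0 →
    (∀ j k l, ∑ i, x i * Rup (cyl G) i j k l x = 0) ∧
    (∀ i k l, ∑ j, x j * Rup (cyl G) i j k l x = 0) ∧
    (∀ i j l, ∑ k, x k * Rup (cyl G) i j k l x = 0) ∧
    (∀ i j k, ∑ l, x l * Rup (cyl G) i j k l x = 0)

/-- **FFGs.** The volume bound for `g = s * (almost round metric)` (from FFGn, SCA1, SCA2).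
Proof.  Apply FFGn with min c0 1, max C0 1 to scl (1/s) G and its frame: for |x| = 1 and
v = (x·v) x + w, w ⊥ x: ip (scl (1/s) G) x v v = (x·v)² + ip G x w w/s.  NearRound: SCA2 with c = 1/s, and
Pf of the new frame = Pf of the old one (`A Sr x = A x`).  gvol (scl (1/s) G) = sqrt(1/s)^n gvol G. -/
def FFGs : Prop :=
  ∀ (n : ℕ) (c0 C0 : ℝ), 2 ≤ n → 0 < c0 → 0 < C0 → ∃ η : ℝ, 0 < η ∧
    ∀ (G A θ : MF n) (s : ℝ), Cofr G A θ → 0 < s →
      (∀ x, ‖x‖ = 1 → ∀ v : Fin (n + 1) → ℝ, Tan x v →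
        c0 * s * ∑ i, v i ^ 2 ≤ ip G x v v ∧ ip G x v v ≤ C0 * s * ∑ i, v i ^ 2) →
      (∀ x, ‖x‖ = 1 → ∀ a b c d,
        |s * ∑ i, ∑ j, ∑ k, ∑ l, Rm (cyl G) i j k l x * A x a i * A x b j * A x c k * A x d l
          - (Pf A x b c * Pf A x a d - Pf A x a c * Pf A x b d)| ≤ η) →
      Real.sqrt s ^ n * (((n : ℝ) + 1) * (volume (Metric.ball (0 : EE n) 1)).toReal / 4) ≤ gvol G

end Pool.Agent.Helper64.RFn
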