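import Pool.Agent.Helper73.RFn.GoodN
import Pool.Agent.Helper64.RFn.GoalsS

/-!
PROJECT RFn, the last stage in dimension n (statements OneStmt, LpStmt, VlbStmt of
Pool.Agent.Helper73.RFn.GoodN).  Every `def` of type `Prop` is one packet (MyeStmt and DicStmt are
proved elsewhere by helper19 and helper47); other goals may be used as hypotheses.
-/

open MeasureTheory Set Matrix

open scoped RealInnerProductSpace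

namespace Pool.Agent.Helper64.RFn

open Pool.Agent.Helper47.RFn Pool.Agent.Helper73.RFn

/-- Local Myers theorem for one metric (helper19). -/
def MyeStmt : Prop :=
  ∀ n : ℕ, 4 ≤ n → ∃ K η0 : ℝ, 1 ≤ K ∧ 0 < η0 ∧ ∀ (A θ : MF n), Frm A θ → ∀ Q η : ℝ, 0 < Q → 0 ≤ η →
    η ≤ η0 → (∀ x, x ≠ 0 → lamf A θ x ≤ Q) → (∃ p, p ≠ 0 ∧ lamf A θ p = Q) →
    (∀ x, x ≠ 0 → ggf A (lamf A θ) (lamf A θ) x ≤ η ^ 2 * Q ^ 3) →
    (∀ x, x ≠ 0 → ∀ a b c d, |Ef A θ a b c d x| ≤ η * Q) →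
    (∀ x, x ≠ 0 → (1 - K * η) * Q ≤ lamf A θ x) ∧
    ∀ x y : EE n, ‖x‖ = 1 → ‖y‖ = 1 → gdist (gOf θ) x y ≤ K / Real.sqrt Q

/-- Curvature in the frame and in coordinates (helper47). -/
def DicStmt : Prop :=
  ∀ (n : ℕ) (A θ : MF n), Frm A θ → ∀ x, ‖x‖ = 1 → ∀ a b c d,
    ∑ i, ∑ j, ∑ k, ∑ l, Rm (cyl (gOf θ)) i j k l x * A x a i * A x b j * A x c k * A x d l
      = Kf A θ a b c d x

/-- **FRCn.** A frame gives a metric.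
Proof.  gOf θ = θ θᵀ is smooth; positive definite since θ x is invertible (A θ = 1);
`∑_j G_ij x_j = ∑_a θ_ia ∑_j θ_ja x_j = ∑_a θ_ia ∑_j A_aj x_j = x_i` (nA, θ A = 1). -/
def FRCn : Prop := ∀ (n : ℕ) (A θ : MF n), Frm A θ → Cofr (gOf θ) A θ

/-- **QCTn.** The maximum of λ is attained and continuous in time (from Goal_C1, Goal_C8 of CoreN).
Proof.  All entries of A, θ are SmFam on Ico 0 T (fields flA, flt), and so are Cc, Gamc, Kf, Rf, Rcf, lamf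
(sums, products, ed i: Goal_C8).  So (t,x) ↦ lamf (A t) (θ t) x is continuous on
Ico 0 T × (unit sphere) and 0-homogeneous in x.  Q t = the maximum over the (compact, nonempty) unit
sphere; continuity: `IsCompact.continuous_sSup`-type lemma or uniform continuity on
[t-δ,t+δ] × sphere. -/
def QCTn : Prop :=
  ∀ (n : ℕ) (T : ℝ) (A θ : ℝ → MF n), 0 < T → FFlow (Ico 0 T) A θ →
    ∃ Q : ℝ → ℝ, ContinuousOn Q (Ico 0 T) ∧ ∀ t, 0 ≤ t → t < T →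
      (∀ x, x ≠ 0 → lamf (A t) (θ t) x ≤ Q t) ∧ ∃ p, p ≠ 0 ∧ lamf (A t) (θ t) p = Q t

/-- **ONEn.** (from MyeStmt).
Proof.  `η = sqrt C (tQ)^(-σ/2)`, Good.p3 (if C ≤ tQ): ggf ≤ C (tQ)^(-σ) Q³ = η² Q³ and
|Ef| ≤ sqrt e2f ≤ sqrt (C (tQ)^(-σ) Q²) = η Q; η ≤ η0 if tQ ≥ (sqrt C/η0)^(2/σ).  Q > 0 because λ ≥ l0 > 0.
Frm (A t) (θ t) from FFlow.  C' = max of C, (sqrt C/η0)^(2/σ), K sqrt C, sqrt C, K, 1. -/
def ONEn : Prop := OneStmt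

/-- **LPn.** (from OneStmt, QCTn).
Proof.  C1 from OneStmt; Q from QCTn; `A0 = 2 max (C1, (2 C1)^(2/σ))` (so A0 ≥ 2 and
C1 (A0/2)^(-σ/2) ≤ 1/2), `C3 = 2 + C²`, `C2 = C3/2 ≥ 1`.
Good.s3 with e = C (Good.p2) and Blow: (a) Q t ≥ 1/(C3 (T - t)) for 0 < t < T.  t Q(t) is continuous on
[0,T), is 0 at t = 0 and exceeds A0 somewhere by (a).  τ = the smallest t with t Q(t) ≥ A0 (closed set,
T1 < T), so τ > 0, τ Q(τ) = A0 and t λ ≤ t Q(t) ≤ A0 for t ≤ τ: `bef`.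
(a) at τ: T - τ ≥ 1/(C3 Q(τ)) = τ/(C3 A0).  OneStmt at τ: λ ≥ Q(τ)/2 everywhere; s2 (m = Q(τ)/2): for
t ≥ τ λ ≥ Q(τ)/2, and T - τ ≤ 1/Q(τ) = τ/A0 ≤ τ/2: `len`.
For τ ≤ t < T: y = t Q(t) ≥ τ Q(τ)/2 = A0/2 ≥ C1, so OneStmt applies at t, u := C1 y^(-σ/2) ≤ 1/2.
z = 2(T-t)/τ ≤ 1; by (a) y ≥ τ/(C3 (T-t)) = 1/(C2 z), so y^(-σ/2) ≤ (C2 z)^(σ/2) ≤ C2 z^(σ/2).
s2 at t with m = (1-u) Q(t): Q(t) ≤ 1/(2 (T-t)(1-u)) ≤ (1+2u)/(2(T-t)), in particular Q(t) ≤ 1/(T-t).  So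
λ ≤ Q(t) ≤ 1/(2(T-t)) + C1 C2 z^(σ/2)/(T-t), and |Ef| ≤ u Q(t) ≤ C1 C2 z^(σ/2)/(T-t).
Lower bound: for r ≥ t: e2f(r) ≤ (n+1)^4 (C1 C2 z(r)^(σ/2))² Q(r)² ≤ e λ(r)² with
e = 4 (n+1)^4 C1² C2² z(t)^σ (Q(r) ≤ 2 λ(r), z decreasing), so s3: Q(t) ≥ 1/((2 + C e)(T-t))
≥ (1 - C e/2)/(2(T-t)), λ ≥ (1-u) Q(t) ≥ (1 - u - C e/2)/(2(T-t)) (also if 1 - C e/2 < 0, as λ > 0), and
e ≤ 4 (n+1)^4 C1² C2² z^(σ/2).
dis: C1/sqrt Q(τ) = C1 sqrt(τ/A0) ≤ C1 sqrt τ.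
C' = max of A0, C3 A0, C1 C2 + C (n+1)^4 C1² C2², C1, 1. -/
def LPn : Prop := OneStmt → LpStmt

/-- **DETn2.** The volume density (from FRCn).
Proof.  `sqrt (det (gOf θ)) = |det θ|` (det (θ θᵀ) = (det θ)²).  Jacobi formula along the family
t ↦ θ t x (entries differentiable within I, flt with the empty word): with θ' = - θ Rcf,
(det θ)' = det θ * trace (A θ') = - det θ * trace Rcf = - n λ det θ (lamf = (1/n) trace Rcf, n ≥ 1).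
If det θ < 0 the same for -det θ: locally |det θ| = ± det θ; or write
`|det θ (r)| = sqrt ((det θ (r))²)` and use the derivative of sqrt at a positive number. -/
def DETn2 : Prop :=
  ∀ (n : ℕ) (I : Set ℝ) (A θ : ℝ → MF n), 1 ≤ n → FFlow I A θ → ∀ t ∈ I, ∀ x, x ≠ 0 →
    0 < Real.sqrt (gOf (θ t) x).det ∧
    HasDerivWithinAt (fun r => Real.sqrt (gOf (θ r) x).det)
      (-(n : ℝ) * lamf (A t) (θ t) x * Real.sqrt (gOf (θ t) x).det) I t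

/-- **VEQn.** Pointwise estimates in the last stage (from DETn2).
Proof.  z(t) = 2(T-t)/τ ≤ 1, (z^(σ/2))' = -(σ/2) z^(σ/2)/(T-t).
(1) f(t) = log (sqrt det G(t)) - (n/2) log (T-t): f' = -n λ + n/(2(T-t)) ≤ n C z^(σ/2)/(T-t), so
f + (2 n C/σ) z^(σ/2) is nonincreasing on [τ,T) (one-sided derivative at τ: use Ico, it is in the
interior of Ico 0 T as τ > 0), f(t) ≤ f(τ) + 2nC/σ.  Exponentiate (n-th power of sqrt (T-t)).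
(2) w_a = ∑_i θ_ia v_i, ip (gOf θ) x v v = ∑ w_a²; w_a' = - ∑_b w_b Rcf_ba;
Rcf_bc = λ P_bc + ∑_d E_bdcd (∑_d (P_bc P_dd - P_bd P_dc) = (n-1) P_bc: trace of P is n, P² = P);
∑_a nfc_a w_a = ∑ x̂_i v_i = 0 for Tan x v (θ A = 1), so ∑ P_ab w_a w_b = |w|² and
(|w|²)' = -2 λ |w|² - 2 ∑ w_a w_b E_bdad, |last| ≤ 2 (n+1)² C z^(σ/2)/(T-t) |w|².
φ = |w|²/(T-t) (if v ≠ 0 it is positive; v = 0 trivial): |φ'| ≤ C4 z^(σ/2)/(T-t) φ with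
C4 = 2 C (1 + (n+1)²), so log φ ± (2 C4/σ) z^(σ/2) is monotone: |log φ(t) - log φ(τ)| ≤ 2 C4/σ. -/
def VEQn : Prop :=
  ∀ (n : ℕ) (C σ : ℝ), 4 ≤ n → 1 ≤ C → 0 < σ → σ ≤ 1 → ∃ C' : ℝ, 1 ≤ C' ∧
    ∀ (T τ : ℝ) (A θ : ℝ → MF n), FFlow (Ico 0 T) A θ → Last T C σ τ A θ →
      ∀ t, τ ≤ t → t < T → ∀ x, x ≠ 0 →
        Real.sqrt (gOf (θ t) x).det / Real.sqrt (T - t) ^ n
          ≤ C' * (Real.sqrt (gOf (θ τ) x).det / Real.sqrt (T - τ) ^ n)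
        ∧ ∀ v : Fin (n + 1) → ℝ, Tan x v →
          ip (gOf (θ τ)) x v v / (T - τ) ≤ C' * (ip (gOf (θ t)) x v v / (T - t))
          ∧ ip (gOf (θ t)) x v v / (T - t) ≤ C' * (ip (gOf (θ τ)) x v v / (T - τ))

/-- **CMPn.** A metric is uniformly equivalent to the round one.
Proof.  (x,v) ↦ ip G x v v is continuous and positive on {‖x‖ = 1} × {∑ v_i² = 1} (compact). -/
def CMPn : Prop :=
  ∀ (n : ℕ) (G : MF n), IsMetric G → ∃ c1 C1 : ℝ, 0 < c1 ∧ 0 < C1 ∧ ∀ x, ‖x‖ = 1 →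
    ∀ v : Fin (n + 1) → ℝ, c1 * ∑ i, v i ^ 2 ≤ ip G x v v ∧ ip G x v v ≤ C1 * ∑ i, v i ^ 2

/-- **VLBn.** The lower volume bound (from FFGs, FRCn, DETn2, VEQn, CMPn, DicStmt, Goal_C4, Goal_C6).
Proof.  C' from VEQn, c1, C1 from CMPn at time τ; s = 2(n-1)(T-t): for τ ≤ t < T, |x| = 1, v ⊥ x, by VEQn (2)
c0 s |v|² ≤ ip G(t) v v ≤ C0 s |v|² with c0 = c1/(2(n-1) C' (T-τ)), C0 = C' C1/(2(n-1)(T-τ)), independent of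
t.  η from FFGs.  Kf = -Rf, Ef = Rf - λ/(n-1) (P_ac P_bd - P_ad P_bc), so
s Kf - (P_bc P_ad - P_ac P_bd) = -s Ef + (s λ/(n-1) - 1)(P_bc P_ad - P_ac P_bd), |P| ≤ 1,
s λ/(n-1) - 1 = 2(T-t)(λ - 1/(2(T-t))), so by Last.aft it is ≤ (2(n-1) + 4) C z^(σ/2) ≤ η for t close to T
(`Pf A x` = Pff at |x| = 1; DicStmt).  FFGs: sqrt s ^n K_n ≤ gvol G(t), K_n = (n+1) vol(ball)/4.
VEQn (1) integrated over the ball: gvol G(t) ≤ C' sqrt(T-t)^n/sqrt(T-τ)^n gvol G(τ), so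
gvol G(τ) ≥ K_n sqrt(T-τ)^n/C' ≥ K_n sqrt(τ/C)^n/C' (2(n-1) ≥ 1, Last.len).
gvol G(0) ≥ gvol G(τ): by DETn2 and λ ≥ 0 the density is nonincreasing on [0,τ] for each x ≠ 0
(integrability: Goal_C4, Goal_C6).  v0 = K_n/(C' sqrt C ^ n). -/
def VLBn : Prop := VlbStmt

end Pool.Agent.Helper64.RFn
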