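import Pool.Agent.Helper64.RFn.GoalsF
import Pool.Agent.Helper2.RF.LSD
import Pool.Agent.Helper90.RF.NEM

/-! LSDn: radial parallel transport depends smoothly on the end point (general dimension). -/

open MeasureTheory Set

namespace Pool.Agent.Helper64.RFn

open Pool.Agent.Helper2.RF

theorem lsdn : LSDn := by
  intro W E _ _ _ _ _ _ B hB
  have nem := Helper90.RF.nem
  set a : W → ℝ → (E →L[ℝ] E) := fun ξ s => - B (s • ξ) ξ with ha
  have ha1 : ContDiff ℝ (⊤ : ℕ∞) (fun p : W × ℝ => a p.1 p.2) := by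
    have h1 : ContDiff ℝ (⊤ : ℕ∞) (fun p : W × ℝ => B (p.2 • p.1)) :=
      hB.comp (contDiff_snd.smul contDiff_fst)
    exact (h1.clm_apply contDiff_fst).neg
  obtain ⟨Φ0, hΦ01, hΦ02⟩ := nem W (E →L[ℝ] E) a ha1
  set Φ : W → Z (E →L[ℝ] E) := fun ξ => io (Φ0 ξ) with hΦdef
  have hΦ1 : ∀ ξ s, va (Φ ξ) s = a ξ s := fun ξ s => hΦ01 ξ s
  have hio : ContDiff ℝ (⊤ : ℕ∞) (io (A := E →L[ℝ] E)) := (io (A := E →L[ℝ] E)).contDiff
  have hΦ2 : ContDiff ℝ (⊤ : ℕ∞) Φ := hio.comp hΦ02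
  have hYc : ContDiff ℝ (⊤ : ℕ∞) (fun ξ : W => YY (Φ ξ)) := YY_contDiff.comp hΦ2
  set U : W → (E →L[ℝ] E) := fun ξ => va (YY (Φ ξ)) ⟨1, by simp⟩ with hU
  have hUc : ContDiff ℝ (⊤ : ℕ∞) U := by
    have hL : ContDiff ℝ (⊤ : ℕ∞) (ev (A := E →L[ℝ] E) ⟨1, by simp⟩) :=
      (ev (A := E →L[ℝ] E) ⟨1, by simp⟩).contDiff
    exact hL.comp hYc
  have hexΦ : ∀ ξ, ∀ s ∈ Icc (0:ℝ) 1, ex (Φ ξ) s = a ξ s := by
    intro ξ s hs
    rw [ex_mem _ hs, hΦ1]
  refine ⟨U, hUc, ?_, ?_⟩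
  · have h0 : Φ 0 = 0 := by
      apply va_ext
      intro s
      rw [hΦ1]
      simp only [ha, map_zero, neg_zero]
      rfl
    have h1 : (1 : Z (E →L[ℝ] E)) = YY (Φ 0) := by
      refine YY_unique _ _ ?_
      rw [h0]
      simp [TT]
    change va (YY (Φ 0)) _ = _
    rw [← h1]
    rfl
  · intro ξ
    -- scaling
    have hsc : ∀ t : Icc (0:ℝ) 1, U ((t:ℝ) • ξ) = va (YY (Φ ξ)) t := by
      intro t
      have ht0 := t.2.1
      have ht1 := t.2.2
      have hmem : ∀ r : Icc (0:ℝ) 1, (t:ℝ) * r ∈ Icc (0:ℝ) 1 := fun r =>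
        ⟨mul_nonneg ht0 r.2.1, mul_le_one₀ ht1 r.2.1 r.2.2⟩
      let z : Z (E →L[ℝ] E) :=
        (⟨fun r => ex (YY (Φ ξ)) ((t:ℝ) * r), by
          exact (ex_cont _).comp (continuous_const.mul continuous_subtype_val)⟩ :
            C(Icc (0:ℝ) 1, E →L[ℝ] E))
      have hzv : ∀ r, va z r = ex (YY (Φ ξ)) ((t:ℝ) * r) := fun r => rfl
      have hz : z = YY (Φ ((t:ℝ) • ξ)) := by
        refine YY_unique _ _ ?_
        apply va_ext
        intro r
        rw [va_add, va_one, TT_apply, hzv, ex_mem _ (hmem r), YY_apply]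
        congr 1
        have e2 := intervalIntegral.smul_integral_comp_mul_left (a := (0:ℝ)) (b := (r:ℝ))
          (fun s => ex (Φ ξ) s * ex (YY (Φ ξ)) s) (t:ℝ)
        rw [mul_zero] at e2
        change (∫ s in (0:ℝ)..((t:ℝ) * r), ex (Φ ξ) s * ex (YY (Φ ξ)) s) = _
        rw [← e2, ← intervalIntegral.integral_smul]
        refine intervalIntegral.integral_congr ?_
        intro s hs
        rw [uIcc_of_le r.2.1] at hs
        have hs1 : s ∈ Icc (0:ℝ) 1 := ⟨hs.1, hs.2.trans r.2.2⟩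
        have hs2 : (t:ℝ) * s ∈ Icc (0:ℝ) 1 := hmem ⟨s, hs1⟩
        change (t:ℝ) • (ex (Φ ξ) ((t:ℝ) * s) * ex (YY (Φ ξ)) ((t:ℝ) * s)) =
          ex (Φ ((t:ℝ) • ξ)) s * ex z s
        rw [hexΦ _ _ hs2, hexΦ _ _ hs1, ex_mem z hs1, hzv]
        change _ = a ((t:ℝ) • ξ) s * ex (YY (Φ ξ)) ((t:ℝ) * s)
        rw [← smul_mul_assoc]
        congr 1
        simp only [ha, map_smul, smul_neg, smul_smul]
        rw [mul_comm s (t:ℝ)]
      change va (YY (Φ ((t:ℝ) • ξ))) ⟨1, _⟩ = _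
      rw [← hz, hzv]
      change ex (YY (Φ ξ)) ((t:ℝ) * 1) = _
      rw [mul_one, ex_val]
    -- derivatives at 1
    have hd1 : HasDerivAt (fun t : ℝ => U (t • ξ)) (fderiv ℝ U ξ ξ) 1 := by
      have h1 : HasDerivAt (fun t : ℝ => t • ξ) ξ 1 := by
        simpa using (hasDerivAt_id (1:ℝ)).smul_const ξ
      have h2 : HasFDerivAt U (fderiv ℝ U ξ) ((1:ℝ) • ξ) := by
        rw [one_smul]
        exact (hUc.differentiable (by simp)).differentiableAt.hasFDerivAt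
      exact h2.comp_hasDerivAt (1:ℝ) h1
    have hcont : Continuous (fun s : ℝ => a ξ s * ex (YY (Φ ξ)) s) := by
      refine Continuous.mul ?_ (ex_cont _)
      exact ha1.continuous.comp (by fun_prop : Continuous fun s : ℝ => (ξ, s))
    have hd2 : HasDerivAt (fun t : ℝ => (1 : E →L[ℝ] E) +
        ∫ s in (0:ℝ)..t, a ξ s * ex (YY (Φ ξ)) s) (a ξ 1 * ex (YY (Φ ξ)) 1) 1 := by
      refine HasDerivAt.const_add _ ?_
      exact intervalIntegral.integral_hasDerivAt_right (hcont.intervalIntegrable _ _)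
        (hcont.stronglyMeasurableAtFilter _ _) hcont.continuousAt
    have hag : ∀ t ∈ Icc (0:ℝ) 1, U (t • ξ) = (1 : E →L[ℝ] E) +
        ∫ s in (0:ℝ)..t, a ξ s * ex (YY (Φ ξ)) s := by
      intro t ht
      have h5 := hsc ⟨t, ht⟩
      change U (t • ξ) = _ at h5
      rw [h5, YY_apply]
      congr 1
      refine intervalIntegral.integral_congr ?_
      intro s hs
      change s ∈ uIcc (0:ℝ) t at hs
      rw [uIcc_of_le ht.1] at hs
      have hs1 : s ∈ Icc (0:ℝ) 1 := ⟨hs.1, hs.2.trans ht.2⟩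
      simp only
      rw [hexΦ _ _ hs1]
    have h1m : (1:ℝ) ∈ Icc (0:ℝ) 1 := by simp
    have hw1 := hd1.hasDerivWithinAt (s := Icc (0:ℝ) 1)
    have hw2 := (hd2.hasDerivWithinAt (s := Icc (0:ℝ) 1)).congr hag (hag 1 h1m)
    have hun := (uniqueDiffOn_Icc (zero_lt_one (α := ℝ))) 1 h1m
    have hfin := hun.eq_deriv _ hw1 hw2
    rw [hfin, ex_mem _ h1m]
    simp only [ha, one_smul]
    rw [neg_mul]
    rfl

end Pool.Agent.Helper64.RFn
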