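import Pool.Agent.Helper64.RFn.GoalsF

/-! RADn (adapted from Pool.Agent.Helper54.RF.rad). -/

set_option autoImplicit false

open Set Filter Topology
namespace Pool.Agent.Helper64.RFn

private lemma along {W X : Type} [NormedAddCommGroup W] [NormedSpace ℝ W]
    [NormedAddCommGroup X] [NormedSpace ℝ X] {F : W → X}
    (hF : ContDiff ℝ (⊤ : ℕ∞) F) {c : ℝ → W} {c' : W} {t : ℝ} (hc : HasDerivAt c c' t) :
    HasDerivAt (fun s => F (c s)) (fderiv ℝ F (c t) c') t :=
  ((hF.differentiable (by simp)) (c t)).hasFDerivAt.comp_hasDerivAt t hc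

theorem radn : RADn := by
  intro W E _ _ _ _ B P Pi K κ ξ hB hP hPi hPPi hPiP hrad hK hκ hbd a
  set G : W → W →L[ℝ] (E →L[ℝ] E) := fderiv ℝ P with hGdef
  have hG : ContDiff ℝ (⊤ : ℕ∞) G := hP.fderiv_right (by simp)
  have hsymm : ∀ ζ v w, fderiv ℝ G ζ v w = fderiv ℝ G ζ w v := by
    intro ζ v w
    have h : IsSymmSndFDerivAt ℝ P ζ := hP.contDiffAt.isSymmSndFDerivAt (by
      rw [minSmoothness_of_isRCLikeNormedField]
      exact WithTop.coe_le_coe.mpr le_top)
    exact h v w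
  -- the radial equation for the inverse
  have hPir : ∀ ζ, fderiv ℝ Pi ζ ζ = (Pi ζ).comp (B ζ ζ) := by
    intro ζ
    have hc : HasDerivAt (fun t : ℝ => ζ + t • ζ) ζ 0 := by
      simpa using ((hasDerivAt_id (0:ℝ)).smul_const ζ).const_add ζ
    have h1 := along hPi hc
    have h2 := along hP hc
    have h3 := h1.clm_comp h2
    simp only [zero_smul, add_zero] at h3
    have h4 : HasDerivAt (fun t : ℝ => (Pi (ζ + t • ζ)).comp (P (ζ + t • ζ))) 0 0 := by
      simp only [hPiP]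
      exact hasDerivAt_const _ _
    have h5 := h3.unique h4
    have h6 : (fderiv ℝ Pi ζ ζ).comp ((P ζ).comp (Pi ζ))
        + (Pi ζ).comp ((fderiv ℝ P ζ ζ).comp (Pi ζ)) = 0 := by
      have := congrArg (fun T => T.comp (Pi ζ)) h5
      simpa [ContinuousLinearMap.add_comp, ContinuousLinearMap.comp_assoc] using this
    rw [hPPi, ← hGdef, hrad, ContinuousLinearMap.comp_id] at h6
    have h7 : (Pi ζ).comp ((-(B ζ ζ).comp (P ζ)).comp (Pi ζ)) = -(Pi ζ).comp (B ζ ζ) := by
      rw [ContinuousLinearMap.neg_comp, ContinuousLinearMap.comp_assoc, hPPi,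
        ContinuousLinearMap.comp_id, ContinuousLinearMap.comp_neg]
    rw [h7] at h6
    exact add_neg_eq_zero.mp h6
  -- derivative of the radial equation
  have hdr : ∀ ζ, fderiv ℝ G ζ a ζ + G ζ a + (fderiv ℝ B ζ a ζ + B ζ a).comp (P ζ)
      + (B ζ ζ).comp (G ζ a) = 0 := by
    intro ζ
    have hc : HasDerivAt (fun t : ℝ => ζ + t • a) a 0 := by
      simpa using ((hasDerivAt_id (0:ℝ)).smul_const a).const_add ζ
    have h1 := (along hG hc).clm_apply hc
    have h2 := (along hB hc).clm_apply hc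
    have h3 := h2.clm_comp (along hP hc)
    have h4 := h1.add h3
    simp only [zero_smul, add_zero] at h4
    have h5 : HasDerivAt (fun t : ℝ => G (ζ + t • a) (ζ + t • a)
        + (B (ζ + t • a) (ζ + t • a)).comp (P (ζ + t • a))) 0 0 := by
      have : (fun t : ℝ => G (ζ + t • a) (ζ + t • a)
        + (B (ζ + t • a) (ζ + t • a)).comp (P (ζ + t • a))) = fun _ => 0 := by
        funext t
        rw [hrad, neg_add_cancel]
      rw [this]
      exact hasDerivAt_const _ _
    have h6 := h4.unique h5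
    rw [← h6]
    abel
  set b : W → (E →L[ℝ] E) := fun ζ => G ζ a + (B ζ a).comp (P ζ) with hb
  set β : ℝ → (E →L[ℝ] E) := fun r => (Pi (r • ξ)).comp (r • b (r • ξ)) with hβ
  have hβ' : ∀ r : ℝ, HasDerivAt β
      ((Pi (r • ξ)).comp ((Fc B (r • ξ) (r • ξ) a).comp (P (r • ξ)))) r := by
    intro r
    have hc : HasDerivAt (fun t : ℝ => t • ξ) ξ r := by
      simpa using (hasDerivAt_id r).smul_const ξ
    have h1 := (along hG hc).clm_apply (hasDerivAt_const r a)
    have h2 := (along hB hc).clm_apply (hasDerivAt_const r a)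
    have h3 := h2.clm_comp (along hP hc)
    have h13 : HasDerivAt (fun t : ℝ => b (t • ξ)) (fderiv ℝ G (r • ξ) ξ a + G (r • ξ) 0
        + ((fderiv ℝ B (r • ξ) ξ a + B (r • ξ) 0).comp (P (r • ξ))
          + (B (r • ξ) a).comp (G (r • ξ) ξ))) r := h1.add h3
    have h4 : HasDerivAt (fun t : ℝ => t • b (t • ξ)) (r • (fderiv ℝ G (r • ξ) ξ a + G (r • ξ) 0
        + ((fderiv ℝ B (r • ξ) ξ a + B (r • ξ) 0).comp (P (r • ξ))
          + (B (r • ξ) a).comp (G (r • ξ) ξ))) + (1:ℝ) • b (r • ξ)) r :=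
      (hasDerivAt_id r).smul h13
    have h5 := (along hPi hc).clm_comp h4
    refine h5.congr_deriv ?_
    have e1 := hdr (r • ξ)
    have e2 := hPir (r • ξ)
    have e3 := hrad (r • ξ)
    have e4 := hsymm (r • ξ) a (r • ξ)
    have s1 : fderiv ℝ Pi (r • ξ) (r • ξ) = r • fderiv ℝ Pi (r • ξ) ξ := map_smul _ _ _
    have s2 : G (r • ξ) (r • ξ) = r • G (r • ξ) ξ := map_smul _ _ _
    have s3 : fderiv ℝ G (r • ξ) (r • ξ) = r • fderiv ℝ G (r • ξ) ξ := map_smul _ _ _
    have s4 : fderiv ℝ B (r • ξ) (r • ξ) = r • fderiv ℝ B (r • ξ) ξ := map_smul _ _ _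
    rw [s1] at e2
    rw [s2] at e3
    rw [s3] at e4
    simp only [hb, Fc]
    rw [s4]
    clear h1 h2 h3 h13 h4 h5 s1 s2 s3 s4 hc
    generalize r • ξ = ζ at *
    have k1 : (fderiv ℝ Pi ζ ξ).comp (r • (G ζ a + (B ζ a).comp (P ζ)))
        = (Pi ζ).comp ((B ζ ζ).comp (G ζ a + (B ζ a).comp (P ζ))) := by
      rw [ContinuousLinearMap.comp_smul, ← ContinuousLinearMap.smul_comp, e2,
        ContinuousLinearMap.comp_assoc]
    rw [k1, ← ContinuousLinearMap.comp_add]
    congr 1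
    ext q
    have e1q := congrArg (fun T => T q) e1
    have e3q := congrArg (fun T => (B ζ a) (T q)) e3
    have e4q := congrArg (fun T => T q) e4
    simp only [ContinuousLinearMap.add_apply, ContinuousLinearMap.comp_apply,
      ContinuousLinearMap.smul_apply, ContinuousLinearMap.neg_apply, ContinuousLinearMap.sub_apply,
      ContinuousLinearMap.zero_apply, map_add, map_smul, map_neg, map_zero, smul_add] at e1q e3q e4q ⊢
    rw [← e4q, e3q]
    linear_combination (norm := module) e1q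
  -- the estimate
  set R : ℝ := ‖ξ‖ with hRdef
  have hR : 0 ≤ R := norm_nonneg _
  have hseg := norm_image_sub_le_of_norm_deriv_le_segment_01' (f := β)
    (f' := fun r => (Pi (r • ξ)).comp ((Fc B (r • ξ) (r • ξ) a).comp (P (r • ξ))))
    (C := K ^ 2 * κ * R * ‖a‖) (fun r _ => (hβ' r).hasDerivWithinAt) (fun r hr => ?_)
  · have h0 : β 0 = 0 := by
      simp only [hβ, zero_smul, ContinuousLinearMap.comp_zero]
    have h1 : β 1 = (Pi ξ).comp (b ξ) := by
      simp only [hβ, one_smul]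
    rw [h0, sub_zero, h1] at hseg
    have h2 : b ξ = (P ξ).comp ((Pi ξ).comp (b ξ)) := by
      rw [← ContinuousLinearMap.comp_assoc, hPPi, ContinuousLinearMap.id_comp]
    have hb1 : ‖P ξ‖ ≤ K := by
      have := (hbd 1 (by simp)).1
      rwa [one_smul] at this
    show ‖b ξ‖ ≤ _
    rw [h2]
    calc ‖(P ξ).comp ((Pi ξ).comp (b ξ))‖ ≤ ‖P ξ‖ * ‖(Pi ξ).comp (b ξ)‖ :=
          ContinuousLinearMap.opNorm_comp_le _ _
      _ ≤ K * (K ^ 2 * κ * R * ‖a‖) :=
          mul_le_mul hb1 hseg (norm_nonneg _) hK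
      _ = K ^ 3 * κ * R * ‖a‖ := by ring
  · have hn : ‖r • ξ‖ ≤ R := by
      rw [norm_smul, Real.norm_eq_abs, abs_of_nonneg hr.1]
      have := norm_nonneg ξ
      nlinarith [hr.2.le]
    obtain ⟨b1, b2, b3⟩ := hbd r ⟨hr.1, hr.2.le⟩
    have b4 : ‖Fc B (r • ξ) (r • ξ) a‖ ≤ κ * R * ‖a‖ := by
      refine (b3 _ _).trans ?_
      exact mul_le_mul_of_nonneg_right (mul_le_mul_of_nonneg_left hn hκ) (norm_nonneg _)
    have hc0 : 0 ≤ κ * R * ‖a‖ := by positivity
    calc ‖(Pi (r • ξ)).comp ((Fc B (r • ξ) (r • ξ) a).comp (P (r • ξ)))‖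
        ≤ ‖Pi (r • ξ)‖ * (‖Fc B (r • ξ) (r • ξ) a‖ * ‖P (r • ξ)‖) :=
          (ContinuousLinearMap.opNorm_comp_le _ _).trans
            (mul_le_mul_of_nonneg_left (ContinuousLinearMap.opNorm_comp_le _ _) (norm_nonneg _))
      _ ≤ K * ((κ * R * ‖a‖) * K) :=
          mul_le_mul b2 (mul_le_mul b4 b1 (norm_nonneg _) hc0)
            (mul_nonneg (norm_nonneg _) (norm_nonneg _)) hK
      _ = K ^ 2 * κ * R * ‖a‖ := by ring

end Pool.Agent.Helper64.RFn
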