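import Pool.Agent.Helper90.RFn.C1
import Pool.Agent.Helper8.RFn.C2
import Pool.Agent.Helper69.RFn.C3
import Pool.Agent.Helper65.RFn.C4
import Pool.Agent.Helper56.RFn.C6
import Pool.Agent.Helper9.RFn.C8
import Pool.Agent.Helper71.RFn.JACn
import Pool.Agent.Helper71.RFn.DETn
import Pool.Agent.Helper23.RFn.BDRn
import Pool.Agent.Helper56.RFn.DIVn
import Pool.Agent.Helper8.RFn.TRAn
import Pool.Agent.Helper9.RFn.NEEn
import Pool.Agent.Helper42.RFn.FINn
import Pool.Agent.Helper8.RFn.CHRn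
import Pool.Agent.Helper5.RFn.CYCn
import Pool.Agent.Helper62.RFn.CYRn
import Pool.Agent.Helper42.RFn.CONn
import Pool.Agent.Helper2.RFn.CURn
import Pool.Agent.Helper99.RFn.FCBn
import Pool.Agent.Helper81.RFn.SEG
import Pool.Agent.Helper51.RFn.SCA1
import Pool.Agent.Helper2.RFn.RAD0
import Pool.Agent.Helper58.RFn.SCA2
import Pool.Agent.Helper89.RFn.FFGs
import Pool.Agent.Helper64.RFn.LSDn
import Pool.Agent.Helper64.RFn.RADn
import Pool.Agent.Helper64.RFn.TOPn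
import Pool.Agent.Helper64.RFn.FFGn
import Pool.Agent.Helper64.RFn.GoalsV
import Pool.Agent.Helper11.RFn.DEVn
import Pool.Agent.Helper34.RFn.FRCn
import Pool.Agent.Helper5.RFn.CMPn
import Pool.Agent.Helper56.RFn.DETn2
import Pool.Agent.Helper55.RFn.ONEn
import Pool.Agent.Helper60.RFn.VLBn
import Pool.Agent.Helper62.RFn.LPn
import Pool.Agent.Helper97.RFn.QCTn
import Pool.Agent.Helper20.RFn.VEQn

/-!
PROJECT RFn: assembly of helper64's part.
-/

namespace Pool.Agent.Helper64.RFn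

open Pool.Agent.Helper47.RFn

theorem c1d : Goal_C1 := Pool.Agent.Helper90.RFn.goal_C1
theorem c2d : Goal_C2 := goal_C2 c1d
theorem c3d : Goal_C3 := goal_C3 c1d c2d
theorem c4d : Goal_C4 := Pool.Agent.Helper65.RFn.goal_C4 c1d c2d c3d
theorem c6d : Goal_C6 := goal_C6 c1d
theorem c8d : Goal_C8 := Pool.Agent.Helper9.RFn.C8.goal_C8 c1d c2d

theorem chr_d : CHRn := Pool.Agent.Helper8.RFn.chrn c6d
theorem cyc_d : CYCn := Pool.Agent.Helper5.RFn.cycn
theorem cyr_d : CYRn := Pool.Agent.Helper62.RFn.CYR.cyrn chr_d cyc_d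
theorem con_d : CONn := Pool.Agent.Helper42.RFn.conn chr_d
theorem cur_d : CURn := Pool.Agent.Helper2.RFn.curn chr_d
theorem fcb_d : FCBn := Pool.Agent.Helper99.RFn.fcbn cyr_d cur_d
theorem rad0_d : RAD0 := Pool.Agent.Helper2.RFn.rad0 chr_d cyc_d
theorem sca1_d : SCA1 := Pool.Agent.Helper51.RFn.sca1 c1d
theorem sca2_d : SCA2 := Pool.Agent.Helper58.RFn.sca2 chr_d cyc_d rad0_d
theorem dev_d : DEVn :=
  Pool.Agent.Helper11.RFn.devn lsdn radn Pool.Agent.Helper81.RFn.ortn Pool.Agent.Helper81.RFn.seg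
    Pool.Agent.Helper81.RFn.cut
theorem fin_d : FINn :=
  Pool.Agent.Helper42.RFn.finn dev_d Pool.Agent.Helper71.RFn.JACn.jacn
    Pool.Agent.Helper71.RFn.DETn.detn (Pool.Agent.Helper23.RFn.bdrn Pool.Agent.Helper71.RFn.JACn.jacn)
    (Pool.Agent.Helper9.RFn.neen Pool.Agent.Helper71.RFn.DETn.detn divn Pool.Agent.Helper8.RFn.tran)
    topn halfn
theorem ffg_d : FFGn := ffgn fin_d con_d fcb_d
theorem ffgs_d : FFGs := Pool.Agent.Helper89.RFn.ffgs ffg_d sca1_d sca2_d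

theorem frc_d : FRCn := Pool.Agent.Helper34.RFn.frcn
theorem cmp_d : CMPn := Pool.Agent.Helper5.RFn.cmpn
theorem det2_d : DETn2 := Pool.Agent.Helper56.RFn.DETn2.detn2
theorem qct_d : QCTn := Pool.Agent.Helper97.RFn.qctn c8d
theorem one_d (mye : MyeStmt) : Pool.Agent.Helper73.RFn.OneStmt := Pool.Agent.Helper55.RFn.onen mye
theorem lp_d (mye : MyeStmt) : Pool.Agent.Helper73.RFn.LpStmt :=
  Pool.Agent.Helper62.RFn.LPn.lpn qct_d (one_d mye)
theorem veq_d : VEQn := Pool.Agent.Helper20.RFn.veqn det2_d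
theorem vlb_d (dic : DicStmt) : Pool.Agent.Helper73.RFn.VlbStmt :=
  Pool.Agent.Helper60.RFn.VLBn.vlbn ffgs_d frc_d det2_d veq_d cmp_d dic c4d c6d

end Pool.Agent.Helper64.RFn
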