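import Pool.Agent.Helper64.RFn.GoalsV
import Pool.Agent.Helper73.RFn.GoalsH
import Pool.Agent.Helper47.RFn.GoalsC

/-!
PROJECT RFn: the dictionary statements from Goal_FRF.
-/

namespace Pool.Agent.Helper64.RFn

open Pool.Agent.Helper47.RFn Pool.Agent.Helper73.RFn

theorem dic_of_frf (frf : Goal_FRF) : DicStmt := by
  intro n A θ hF x hx a b c d
  have hx0 : x ≠ 0 := by
    rintro rfl
    simp at hx
  obtain ⟨-, -, -, -, -, -, -, -, -, -, -, -, -, -, -, h, -, -⟩ := frf n A θ hF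
  rw [h x hx0 a b c d, hx]
  simp [Rf]

theorem rmk_of_frf (frf : Goal_FRF) : RmkStmt := by
  intro n A θ hF x hx0 a b c d
  obtain ⟨-, -, -, -, -, -, -, -, -, -, -, -, -, -, -, h, -, -⟩ := frf n A θ hF
  rw [h x hx0 a b c d, Rf]
  have h4 : ‖x‖ ^ 4 ≠ 0 := by
    have := norm_pos_iff.2 hx0
    positivity
  field_simp

end Pool.Agent.Helper64.RFn
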