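import Mathlib

/-!
PROJECT RFn, PART F: the cone over a metric of S^n (n = m - 1) which is uniformly equivalent to the
round one and has almost constant curvature 1 is almost flat; its volume is bounded below.
(MP_c98eff_gt, all dimensions.)  Everything is written on `V m = R^m` minus the origin.

Data: `T x : V →L V` = the components of a vector in an orthonormal frame of the cone metric
(so the cone metric is `‖T x v‖²`), `B x u` = the connection form of its Levi-Civita connection in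
this frame (`D_u Z + B x u Z`).  Every `def` of type `Prop` below is one packet; other packets may be
used as hypotheses.
-/

open MeasureTheory Set

open scoped RealInnerProductSpace

namespace Pool.Agent.Helper64.RFn

/-- `R^m` -/
abbrev V (m : ℕ) := EuclideanSpace ℝ (Fin m)

/-- Curvature of the connection `∂_u + B x u`. -/
noncomputable def Fc {V E : Type} [NormedAddCommGroup V] [NormedSpace ℝ V]
    [NormedAddCommGroup E] [NormedSpace ℝ E]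
    (B : V → V →L[ℝ] (E →L[ℝ] E)) (x u v : V) : E →L[ℝ] E :=
  fderiv ℝ B x u v - fderiv ℝ B x v u + (B x u).comp (B x v) - (B x v).comp (B x u)

/-- Orthonormal coframe `T` and connection form `B` of a cone metric on `R^m` minus the origin. -/
structure Cone {m : ℕ} (T : V m → V m →L[ℝ] V m) (B : V m → V m →L[ℝ] (V m →L[ℝ] V m)) :
    Prop where
  smT : ContDiffOn ℝ (⊤ : ℕ∞) T {0}ᶜ
  smB : ContDiffOn ℝ (⊤ : ℕ∞) B {0}ᶜ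
  homT : ∀ r : ℝ, 0 < r → ∀ x, x ≠ 0 → T (r • x) = T x
  homB : ∀ r : ℝ, 0 < r → ∀ x, x ≠ 0 → B (r • x) = r⁻¹ • B x
  radT : ∀ x, x ≠ 0 → ∀ v, ⟪T x x, T x v⟫ = ⟪x, v⟫
  radB : ∀ x, x ≠ 0 → B x x = 0
  skew : ∀ x, x ≠ 0 → ∀ u a b, ⟪B x u a, b⟫ = - ⟪a, B x u b⟫
  tors : ∀ x, x ≠ 0 → ∀ u v,
    fderiv ℝ T x u v - fderiv ℝ T x v u + B x u (T x v) - B x v (T x u) = 0

/-- Bounds. -/
structure CBd {m : ℕ} (T : V m → V m →L[ℝ] V m) (B : V m → V m →L[ℝ] (V m →L[ℝ] V m))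
    (c0 C0 η : ℝ) : Prop where
  cone : Cone T B
  lower : ∀ x, x ≠ 0 → ∀ v, c0 * ‖v‖ ^ 2 ≤ ‖T x v‖ ^ 2
  upper : ∀ x, x ≠ 0 → ∀ v, ‖T x v‖ ^ 2 ≤ C0 * ‖v‖ ^ 2
  curv : ∀ x, ‖x‖ = 1 → ∀ u v, ‖Fc B x u v‖ ≤ η * ‖u‖ * ‖v‖

/-! ### Radial gauge (the base point is the origin here) -/

/-- **LSDn.** Radial parallel transport depends smoothly on the end point.  This is
`Pool.Agent.Helper2.RF.lsd` (with `Pool.Agent.Helper90.RF.nem`) with `W` replaced by a general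
finite dimensional space; the proof is the same (copy the file, the curried smoothness statement
`NEM` of `Pool.Agent.Helper64.RF.GoalsF` is already general and proved: `Helper90.RF.nem`). -/
def LSDn : Prop :=
  ∀ (V E : Type) [NormedAddCommGroup V] [NormedSpace ℝ V] [FiniteDimensional ℝ V]
    [NormedAddCommGroup E] [NormedSpace ℝ E] [CompleteSpace E]
    (B : V → V →L[ℝ] (E →L[ℝ] E)), ContDiff ℝ (⊤ : ℕ∞) B →
    ∃ U : V → (E →L[ℝ] E), ContDiff ℝ (⊤ : ℕ∞) U ∧ U 0 = ContinuousLinearMap.id ℝ E ∧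
      ∀ ξ, fderiv ℝ U ξ ξ = - (B ξ ξ).comp (U ξ)

/-- **RADn.** In the radial gauge the connection is bounded by the curvature.  Same proof as
`Pool.Agent.Helper54.RF.rad` (only the values on the segment from 0 to ξ are used):
b(ζ) = fderiv P ζ a + B ζ a ∘ P ζ, `β r = r • Pi (r ξ) ∘ b(r ξ)` for r in [0,1],
`β' r = r Pi ∘ Fc B (r ξ) ξ a ∘ P`, β 0 = 0, so ‖β 1‖ ≤ K² κ ‖ξ‖ ‖a‖ and b(ξ) = P ξ ∘ β 1. -/
def RADn : Prop :=
  ∀ (V E : Type) [NormedAddCommGroup V] [NormedSpace ℝ V] [NormedAddCommGroup E]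
    [NormedSpace ℝ E] (B : V → V →L[ℝ] (E →L[ℝ] E)) (P Pi : V → (E →L[ℝ] E)) (K κ : ℝ) (ξ : V),
    ContDiff ℝ (⊤ : ℕ∞) B → ContDiff ℝ (⊤ : ℕ∞) P → ContDiff ℝ (⊤ : ℕ∞) Pi →
    (∀ ζ, (P ζ).comp (Pi ζ) = ContinuousLinearMap.id ℝ E) →
    (∀ ζ, (Pi ζ).comp (P ζ) = ContinuousLinearMap.id ℝ E) →
    (∀ ζ, fderiv ℝ P ζ ζ = - (B ζ ζ).comp (P ζ)) → 0 ≤ K → 0 ≤ κ →
    (∀ s ∈ Icc (0:ℝ) 1, ‖P (s • ξ)‖ ≤ K ∧ ‖Pi (s • ξ)‖ ≤ K ∧
      ∀ a b, ‖Fc B (s • ξ) a b‖ ≤ κ * ‖a‖ * ‖b‖) →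
    ∀ a, ‖fderiv ℝ P ξ a + (B ξ a).comp (P ξ)‖ ≤ K ^ 3 * κ * ‖ξ‖ * ‖a‖

/-- **ORTn.** Radial parallel transport of a skew connection is orthogonal.
Proof.  For r in (0,1] the radial equation at ζ = r ξ divided by r gives
(d/dr) U(r ξ) = fderiv U (r ξ) ξ = - B (r ξ) ξ ∘ U (r ξ), so r ↦ ⟪U(rξ) a, U(rξ) b⟫ has derivative
-⟪B.. U a, U b⟫ - ⟪U a, B.. U b⟫ = 0 on (0,1) and is continuous on [0,1]; its value at 0 is ⟪a,b⟫.
(second claim: `adjoint U ∘ U = 1`, finite dimension.) -/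
def ORTn : Prop :=
  ∀ (m : ℕ) (B : V m → V m →L[ℝ] (V m →L[ℝ] V m)) (U : V m → (V m →L[ℝ] V m)),
    ContDiff ℝ (⊤ : ℕ∞) B → ContDiff ℝ (⊤ : ℕ∞) U → U 0 = ContinuousLinearMap.id ℝ (V m) →
    (∀ ξ, fderiv ℝ U ξ ξ = - (B ξ ξ).comp (U ξ)) →
    (∀ x u a b, ⟪B x u a, b⟫ = - ⟪a, B x u b⟫) →
    ∀ ξ, (∀ a b, ⟪U ξ a, U ξ b⟫ = ⟪a, b⟫) ∧
      (U ξ).comp (ContinuousLinearMap.adjoint (U ξ)) = ContinuousLinearMap.id ℝ (V m) ∧
      (ContinuousLinearMap.adjoint (U ξ)).comp (U ξ) = ContinuousLinearMap.id ℝ (V m)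

/-! ### The region -/

/-- The closed cone region (complement of a thin cone around `-e`). -/
def KK {m : ℕ} (e : V m) (c : ℝ) : Set (V m) := {x | x ≠ 0 ∧ -(c * ‖x‖) ≤ ⟪x, e⟫}

/-- The open region on which the almost parallel frame is controlled. -/
def Rg {m : ℕ} (e : V m) (c : ℝ) : Set (V m) :=
  {x | 1 / 4 < ‖x‖ ∧ ‖x‖ < 2 ∧ -(c * ‖x‖) < ⟪x, e⟫}

/-- **SEG.** Segments from `e` to the region stay away from the origin.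
Proof.  |(1-s) e + s x|² = (1-s)² + 2 s (1-s)⟪x,e⟫ + s²‖x‖² ≥ (1-s)² - 2 c s(1-s)‖x‖ + s²‖x‖²
≥ (1-c) ((1-s)² + s²‖x‖²) ≥ (1-c)/16 ((1-s)² + s²) ≥ (1-c)/32. -/
def SEG : Prop :=
  ∀ (m : ℕ) (e : V m) (c : ℝ), ‖e‖ = 1 → 0 ≤ c → c < 1 → ∀ x ∈ Rg e c, ∀ s ∈ Icc (0:ℝ) 1,
    (1 - c) / 32 ≤ ‖e + s • (x - e)‖ ^ 2

/-- **CUT.** Cutting off a form at the origin.
Proof.  `B' y = χ(‖y‖²) • B y` with χ = a smooth transition (`Real.smoothTransition`) which is 0 for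
t ≤ ρ²/4 and 1 for t ≥ ρ²/2 (ρ²/2 ≤ ρ²: for ρ ≤ ‖y‖ the function is 1 near y).  Smooth off 0 by
hypothesis and 0 near 0. -/
def CUT : Prop :=
  ∀ (V F : Type) [NormedAddCommGroup V] [InnerProductSpace ℝ V] [NormedAddCommGroup F]
    [NormedSpace ℝ F] (B : V → F) (ρ : ℝ), 0 < ρ → ContDiffOn ℝ (⊤ : ℕ∞) B {0}ᶜ →
    ∃ B' : V → F, ContDiff ℝ (⊤ : ℕ∞) B' ∧ (∀ y, ρ ≤ ‖y‖ → B' =ᶠ[nhds y] B) ∧
      (∀ y, ∃ t : ℝ, B' y = t • B y ∧ (y = 0 → t = 0))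

/-- Almost parallel orthonormal frame `P`. -/
structure Dev {m : ℕ} (B : V m → V m →L[ℝ] (V m →L[ℝ] V m)) (e : V m) (c ε : ℝ)
    (P : V m → V m →L[ℝ] V m) : Prop where
  smooth : ContDiff ℝ (⊤ : ℕ∞) P
  orth : ∀ x a b, ⟪P x a, P x b⟫ = ⟪a, b⟫
  der : ∀ x ∈ Rg e c, ∀ v, ‖fderiv ℝ P x v + (B x v).comp (P x)‖ ≤ ε * ‖v‖

/-- **DEVn.** Existence of the almost parallel frame (from LSDn, RADn, ORTn, SEG, CUT).
Proof.  By homogeneity (`homB`; Fc B (r x) = r⁻² Fc B x: fderiv of a (-1)-homogeneous function)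
‖Fc B x u v‖ ≤ η ‖x‖⁻² ‖u‖ ‖v‖ for x ≠ 0.  ρ² = (1-c)/64, B' from CUT (skew by the last clause),
`Bs ξ = B' (e + ξ)`, U from LSDn, Pi ξ = adjoint (U ξ) (smooth: adjoint is a continuous linear map;
inverse by ORTn, norms ≤ 1), `P x = U (x - e)`.  For x in Rg: on the segment y = e + s (x - e),
‖y‖² ≥ (1-c)/32 (SEG) so B' = B near y, Fc Bs (s ξ) = Fc B y, κ = 32 η/(1-c), and ‖x - e‖ ≤ 3; RADn
with K = 1 gives the bound 96 η/(1-c) ‖v‖. -/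
def DEVn : Prop :=
  ∀ (m : ℕ) (c : ℝ), 0 < c → c < 1 → ∀ (e : V m), ‖e‖ = 1 →
    ∀ (T : V m → V m →L[ℝ] V m) (B : V m → V m →L[ℝ] (V m →L[ℝ] V m)) (η : ℝ), 0 ≤ η →
      Cone T B → (∀ x, ‖x‖ = 1 → ∀ u v, ‖Fc B x u v‖ ≤ η * ‖u‖ * ‖v‖) →
      ∃ P, Dev B e c (96 / (1 - c) * η) P

/-! ### The developing map -/

/-- The developing map (positively homogeneous, norm preserving). -/
noncomputable def FF {m : ℕ} (T P : V m → V m →L[ℝ] V m) (x : V m) : V m :=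
  ContinuousLinearMap.adjoint (P (‖x‖⁻¹ • x)) (T x x)

/-- **JACn.** The derivative of the developing map.
Proof.  Let X = ‖x‖⁻¹ x (X is in Rg e c), Q(x) = P(X).  The derivative of x ↦ ‖x‖⁻¹ x in the
direction v is w = ‖x‖⁻¹(v - ⟪X,v⟫ X), so fderiv Q x v = fderiv P X w = - B X w ∘ P X + R,
‖R‖ ≤ ε ‖w‖ ≤ ε ‖v‖/‖x‖; B X w = ‖x‖⁻¹ B X v = B x v (radB, homB).  As B x v is skew the adjoint
of - B x v ∘ P X is `adjoint (P X) ∘ B x v`.  Product rule: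
D_v F = adjoint(P X) (B x v (T x x)) + adjoint(R)(T x x) + adjoint(P X) (fderiv T x v x + T x v).
tors with v = x: fderiv T x u x + B x u (T x x) = 0 because fderiv T x x = 0 (homT) and B x x = 0.
So D_v F - adjoint (P X) (T x v) = adjoint(R)(T x x), of norm ≤ ε ‖v‖/‖x‖ * ‖x‖ (‖T x x‖ = ‖x‖ by
radT).  Norm and homogeneity are clear (radT, orth gives that the adjoint is isometric, homT). -/
def JACn : Prop :=
  ∀ (m : ℕ) (e : V m) (c ε : ℝ) (T : V m → V m →L[ℝ] V m)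
    (B : V m → V m →L[ℝ] (V m →L[ℝ] V m)) (P : V m → V m →L[ℝ] V m), Cone T B → Dev B e c ε P →
    (∀ x, x ≠ 0 → ‖FF T P x‖ = ‖x‖ ∧ ∀ r : ℝ, 0 < r → FF T P (r • x) = r • FF T P x) ∧
    ∀ x, x ≠ 0 → -(c * ‖x‖) < ⟪x, e⟫ → ContDiffAt ℝ (⊤ : ℕ∞) (FF T P) x ∧
      ∀ v, ‖fderiv ℝ (FF T P) x v
        - ContinuousLinearMap.adjoint (P (‖x‖⁻¹ • x)) (T x v)‖ ≤ ε * ‖v‖

/-- **DETn.** Uniform continuity of the determinant, invariance and bounds.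
Proof.  (1) det is continuous on the finite dimensional space of endomorphisms, closed balls are
compact: Heine.  (2) ‖det P‖ = 1 for an isometric P (`LinearMap.det` of an isometry), det of the
adjoint = det.  (3) if ‖A v‖ ≤ L ‖v‖ the image of the unit ball is inside the ball of radius L, so
|det A| vol(ball 1) ≤ L^m vol(ball 1) (`Measure.addHaar_image_linearMap`, `addHaar_ball`).
(4) apply (3) to A⁻¹. -/
def DETn : Prop :=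
  ∀ (m : ℕ),
    (∀ L μ : ℝ, 0 < μ → ∃ ε : ℝ, 0 < ε ∧ ∀ A A' : V m →L[ℝ] V m, ‖A‖ ≤ L →
      (∀ v, ‖A' v - A v‖ ≤ ε * ‖v‖) → |A'.det - A.det| ≤ μ) ∧
    (∀ P A : V m →L[ℝ] V m, (∀ a b, ⟪P a, P b⟫ = ⟪a, b⟫) →
      |((ContinuousLinearMap.adjoint P).comp A).det| = |A.det|) ∧
    (∀ (A : V m →L[ℝ] V m) (L : ℝ), 0 ≤ L → (∀ v, ‖A v‖ ^ 2 ≤ L * ‖v‖ ^ 2) →
      |A.det| ≤ Real.sqrt L ^ m) ∧
    (∀ (A : V m →L[ℝ] V m) (l : ℝ), 0 < l → (∀ v, l * ‖v‖ ^ 2 ≤ ‖A v‖ ^ 2) →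
      Real.sqrt l ^ m ≤ |A.det|)

/-- **BDRn.** The boundary of the region has small image (from JACn; m ≥ 3).
Proof.  ρ = sqrt (1 - c²).  Write x = -c e + ρ u, x' = -c e + ρ u' with unit vectors u, u'
orthogonal to e.  If ⟪u,u'⟫ ≥ 0 the points y = -c e + ρ w with w = u + s u' and w = (1-s) u + u'
(s in [0,1]) satisfy ‖w‖ ≥ 1, ⟪w,e⟫ = 0, so ‖y‖ ≥ 1 and -(c'‖y‖) < ⟪y,e⟫ = -c (c < c'); along the two
segments ‖fderiv F y v‖ ≤ (sqrt C0 + ε)‖v‖ (JACn), so ‖F x - F x'‖ ≤ 2 ρ (sqrt C0 + ε)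
(mean value inequality).  In general choose a unit vector u'' orthogonal to e with ⟪u,u''⟫ ≥ 0
and ⟪u',u''⟫ ≥ 0: (u+u')/‖u+u'‖ if u' ≠ -u, else any unit vector orthogonal to e and u (m ≥ 3). -/
def BDRn : Prop :=
  ∀ (m : ℕ) (e : V m) (c c' C0 ε : ℝ) (T : V m → V m →L[ℝ] V m)
    (B : V m → V m →L[ℝ] (V m →L[ℝ] V m)) (P : V m → V m →L[ℝ] V m), 3 ≤ m → ‖e‖ = 1 →
    0 < c → c < c' → c < 1 → 0 ≤ ε → 0 ≤ C0 → Cone T B →
    (∀ x, x ≠ 0 → ∀ v, ‖T x v‖ ^ 2 ≤ C0 * ‖v‖ ^ 2) → Dev B e c' ε P →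
    ∀ x x' : V m, ‖x‖ = 1 → ‖x'‖ = 1 → ⟪x, e⟫ = -c → ⟪x', e⟫ = -c →
      ‖FF T P x - FF T P x'‖ ≤ 4 * Real.sqrt (1 - c ^ 2) * (Real.sqrt C0 + ε)

/-! ### The developing map does not shrink -/

/-- **DIVn.** Divergence theorem for compactly supported fields.
Proof.  trace (fderiv W x) = Σ_i ⟪fderiv W x e_i, e_i⟫ and the integral of each partial derivative
of a compactly supported C^1 function is 0 (`integral_bilinear_hasFDerivAt_right_eq_neg_left...`,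
`integral_mul_fderiv_eq_neg_fderiv_mul_of_integrable` with the second factor a cutoff or constant,
or `integral_fderiv_of_hasCompactSupport`-like lemmas; or Fubini). -/
def DIVn : Prop :=
  ∀ (m : ℕ) (W : V m → V m), ContDiff ℝ 1 W → HasCompactSupport W →
    ∫ x, LinearMap.trace ℝ (V m) (fderiv ℝ W x : V m →ₗ[ℝ] V m) = 0

/-- **TRAn.** Divergence in terms of the connection.
Proof.  T is differentiable at x and invertible near x, so z = T⁻¹ Z is differentiable at x and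
T x (D_v z) = D_v Z - (fderiv T x v)(z x).  Jacobi: the derivative of |det T| in the direction u is
|det T x| trace (T x⁻¹ ∘ fderiv T x u) (det T x ≠ 0; the sign is locally constant).
trace (fderiv (|det T| z)) = (D_(z x)|det T|) + |det T| trace (fderiv z x) = |det T| trace A,
T x (A v) = D_v Z - (fderiv T x v) z + (fderiv T x z) v
= D_v Z + B x v (T x z) - B x z (T x v) (tors with u = v, v = z), T x z = Z x.
trace (T⁻¹ ∘ B x z ∘ T) = trace (B x z) = 0 (skew). -/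
def TRAn : Prop :=
  ∀ (m : ℕ) (T : V m → V m →L[ℝ] V m) (B : V m → V m →L[ℝ] (V m →L[ℝ] V m)), Cone T B →
    (∀ x, x ≠ 0 → ∀ v, T x v = 0 → v = 0) →
    ∀ (Z z : V m → V m) (S : V m →L[ℝ] V m) (x : V m), x ≠ 0 → DifferentiableAt ℝ Z x →
      (∀ᶠ y in nhds x, T y (z y) = Z y) →
      (∀ v, T x (S v) = fderiv ℝ Z x v + B x v (Z x)) →
      DifferentiableAt ℝ (fun y => |(T y).det| • z y) x ∧
      LinearMap.trace ℝ (V m) (fderiv ℝ (fun y => |(T y).det| • z y) x : V m →ₗ[ℝ] V m)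
        = |(T x).det| * LinearMap.trace ℝ (V m) (S : V m →ₗ[ℝ] V m)

/-- **NEEn.** The developing map does not shrink (from DETn, DIVn, TRAn, JACn if useful; m ≥ 2).
Proof.  Suppose ‖FF x - y0‖ ≤ δ for all x in KK e 0 with ‖x‖ = 1.  Let χ(x) = χ0(x - e), χ0 a fixed
smooth bump, 0 ≤ χ0 ≤ 1, support in the ball of radius 1/2 about 0, ∫ χ0 > 0.  On the ball of radius
1/2 about e: 1/2 < ‖x‖ < 3/2, ⟪x,e⟫ > 0.  Let Z1(x) = P(x) y0, Z2(x) = ‖x‖⁻¹ T x x, z1, z2 their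
images under T⁻¹ (z2 = ‖x‖⁻¹ x).  With X = ‖x‖⁻¹x: Z2(x) = T X X = P(X) (FF X), so
‖Z2(x) - P(X) y0‖ ≤ δ; on the segment from X to x (in Rg e 0) the derivative of s ↦ P(s X) is
≤ ε (radB), so ‖P(x) - P(X)‖ ≤ ε/2.  So ‖Z1 - Z2‖ ≤ δ + ε and ‖z1 - z2‖ ≤ (δ+ε)/sqrt c0.
TRAn: for Z1, S1 with ‖T (S1 v)‖ ≤ ε ‖v‖ (Dev.der applied to y0), so ‖S1‖ ≤ ε/sqrt c0 and
|trace S1| ≤ m ε/sqrt c0.  For Z2, S2 v = ‖x‖⁻¹ v - ‖x‖⁻³ ⟪x,v⟫ x (as in JACn: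
fderiv T x v x + B x v (T x x) = 0), trace S2 = (m-1)/‖x‖ ≥ 2(m-1)/3 ≥ 2/3.
W = χ |det T| (z1 - z2) (zero outside the support of χ) is C^1 with compact support, and
trace fderiv W = |det T| dχ(z1 - z2) + χ |det T| (trace S1 - trace S2)
≤ (sqrt C0)^m (δ+ε)/sqrt c0 ‖dχ‖ - (1/3)(sqrt c0)^m χ   if m ε/sqrt c0 ≤ 1/3.
Integrate (DIVn): (1/3)(sqrt c0)^m ∫χ0 ≤ (sqrt C0)^m (δ+ε)/sqrt c0 ∫‖dχ0‖: impossible for δ, ε
small in terms of c0, C0, m, χ0. -/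
def NEEn : Prop :=
  ∀ (m : ℕ) (c0 C0 : ℝ), 2 ≤ m → 0 < c0 → 0 < C0 → ∃ δ0 ε0 : ℝ, 0 < δ0 ∧ 0 < ε0 ∧
    ∀ (e : V m) (c ε : ℝ) (T : V m → V m →L[ℝ] V m) (B : V m → V m →L[ℝ] (V m →L[ℝ] V m))
      (P : V m → V m →L[ℝ] V m), ‖e‖ = 1 → 0 < c → 0 ≤ ε → ε ≤ ε0 → Cone T B →
      (∀ x, x ≠ 0 → ∀ v, c0 * ‖v‖ ^ 2 ≤ ‖T x v‖ ^ 2 ∧ ‖T x v‖ ^ 2 ≤ C0 * ‖v‖ ^ 2) →
      Dev B e c ε P → ∀ y0 : V m, ‖y0‖ = 1 →
      ∃ x ∈ KK e 0, ‖x‖ = 1 ∧ δ0 < ‖FF T P x - y0‖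

/-! ### Covering and the volume bound -/

/-- **TOPn.** Covering by openness and connectedness.  Same proof as `Pool.Agent.Helper60.RF.top`:
A = F '' (KK e c).  C = {y ≠ 0 : δ < ‖‖y‖⁻¹ y - y0‖} = {y : ⟪y,y0⟫ < (1-δ²/2) ‖y‖} is open and star
convex about -y0, hence preconnected.  A ∩ C is relatively closed in C (‖x_n‖ = ‖F x_n‖, compactness,
KK closed in {0}ᶜ) and open (a point of KK with image in C is not on the boundary), nonempty. -/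
def TOPn : Prop :=
  ∀ (m : ℕ) (F : V m → V m) (e y0 : V m) (c δ : ℝ), 0 < δ → δ < 1 → ‖y0‖ = 1 →
    (∀ x ∈ KK e c, ∀ r : ℝ, 0 < r → F (r • x) = r • F x) → (∀ x ∈ KK e c, ‖F x‖ = ‖x‖) →
    ContinuousOn F (KK e c) →
    (∀ x ∈ KK e c, -(c * ‖x‖) < ⟪x, e⟫ → nhds (F x) ≤ Filter.map F (nhds x)) →
    (∀ x ∈ KK e c, ‖x‖ = 1 → -(c * ‖x‖) = ⟪x, e⟫ → ‖F x - y0‖ ≤ δ) →
    (∃ x ∈ KK e c, ‖x‖ = 1 ∧ δ < ‖F x - y0‖) →
    ∀ y : V m, y ≠ 0 → δ < ‖‖y‖⁻¹ • y - y0‖ → ∃ x ∈ KK e c, F x = y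

/-- **HALFn.** Half of the ball is outside of a thin cone (as `Pool.Agent.Helper55.RF.half`).
Proof.  D = {y ∈ ball : y ≠ 0, ‖‖y‖⁻¹ y - y0‖ ≤ δ}; D and -D are disjoint (δ < 1: otherwise
2 = ‖y0 + y0‖ ≤ 2δ) and have the same measure, so 2 vol D ≤ vol ball; {0} is a null set (m ≥ 1). -/
def HALFn : Prop :=
  ∀ (m : ℕ) (δ : ℝ) (y0 : V m), 1 ≤ m → 0 < δ → δ < 1 → ‖y0‖ = 1 →
    volume (Metric.ball (0 : V m) 1) ≤
      2 * volume {y : V m | y ∈ Metric.ball (0 : V m) 1 ∧ y ≠ 0 ∧ δ < ‖‖y‖⁻¹ • y - y0‖}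

/-- **FINn.** The volume bound (from DEVn, JACn, DETn, BDRn, NEEn, TOPn, HALFn; compare
`Pool.Agent.Helper42.RF.fin`).
Proof.  e = a unit vector (m ≥ 3).  Given c0, C0 take δ0, ε0 from NEEn, δ = min δ0 (1/2);
c in (1/2,1) with 4 sqrt(1-c²) (sqrt C0 + 1) ≤ δ, c' = (1+c)/2; ε1 from DETn (1) with
L = sqrt C0, μ = min (1/4) ((sqrt c0)^m/2); η > 0 so small that ε = 96/(1-c') η ≤ 1, ε0, ε1.
P from DEVn (c'), F = FF T P: by JACn, DETn (1), (2): for x in KK e c: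
| |det DF x| - |det T x| | ≤ μ (‖adjoint(P) ∘ T x‖ ≤ sqrt C0), and |det T x| ≥ (sqrt c0)^m
(DETn (4)), so det DF x ≠ 0, F is open at x.  Let x0 be a point with ‖x0‖ = 1, ⟪x0,e⟫ = -c,
y0 = F x0: by BDRn ‖F x - y0‖ ≤ δ on the boundary.  NEEn gives x1 in KK e 0 ⊆ KK e c with
δ < ‖F x1 - y0‖ (if δ = δ0: fine, δ0 < ‖..‖; δ ≤ δ0).  By TOPn and ‖F x‖ = ‖x‖ the image of
KK e c ∩ ball covers {y ∈ ball, y ≠ 0, δ < ‖y/‖y‖ - y0‖}.  With HALFn and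
`MeasureTheory.addHaar_image_le_lintegral_abs_det_fderiv`:
vol(ball)/2 ≤ ∫_(KK ∩ ball) |det DF| ≤ ∫_ball (|det T| + 1/4). -/
def FINn : Prop :=
  ∀ (m : ℕ) (c0 C0 : ℝ), 3 ≤ m → 0 < c0 → 0 < C0 → ∃ η : ℝ, 0 < η ∧
    ∀ (T : V m → V m →L[ℝ] V m) (B : V m → V m →L[ℝ] (V m →L[ℝ] V m)), CBd T B c0 C0 η →
      (volume (Metric.ball (0 : V m) 1)).toReal / 4 ≤
        ∫ x in Metric.ball (0 : V m) 1, |(T x).det|

end Pool.Agent.Helper64.RFn
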