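import Pool.Agent.Helper64.RFn.GoalsF
import Pool.Agent.Helper47.RFn.CoreN

/-!
PROJECT RFn, link between part F and the core definitions of helper47 (CoreN.lean): the cone metric
with matrix `G` (0-homogeneous, `G x = x`), its Christoffel symbols, its curvature, orthonormal
coframe `θ` (`G = θ θᵀ`, `A θ = 1`).  The goal FFGn is the volume bound in the language of CoreN.
-/

open MeasureTheory Set Matrix

open scoped RealInnerProductSpace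

namespace Pool.Agent.Helper64.RFn

open Pool.Agent.Helper47.RFn (EE MF pd Hom0 Sm IsMetric cyl Chr Rup Rm ip gvol)

/-- smooth orthonormal frame `A` (rows) and coframe `θ` of `G` -/
structure Cofr {n : ℕ} (G A θ : MF n) : Prop where
  met : IsMetric G
  smA : ∀ i j, Sm (fun x => A x i j)
  smt : ∀ i j, Sm (fun x => θ x i j)
  inv : ∀ x, A x * θ x = 1
  gth : ∀ x, G x = θ x * (θ x).transpose

/-- components of a vector in the frame: `(T v)_a = ∑ θ_ia v_i` -/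
noncomputable def Tm {n : ℕ} (θ : MF n) (x : EE n) : V (n + 1) →L[ℝ] V (n + 1) :=
  Matrix.toEuclideanCLM (𝕜 := ℝ) (θ x).transpose

/-- connection matrices of the frame: `M_i = θᵀ Γ_i Aᵀ - (∂_i θ)ᵀ Aᵀ`, `(Γ_i)_kj = Chr G i j k` -/
noncomputable def Mi {n : ℕ} (G A θ : MF n) (i : Fin (n + 1)) (x : EE n) :
    Matrix (Fin (n + 1)) (Fin (n + 1)) ℝ :=
  (θ x).transpose * Matrix.of (fun k j => Chr G i j k x) * (A x).transpose
    - (Matrix.of (fun a b => pd i (fun y => θ y a b) x)).transpose * (A x).transpose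

/-- the connection form of the cone metric in the frame -/
noncomputable def Bm {n : ℕ} (G A θ : MF n) (x : EE n) :
    V (n + 1) →L[ℝ] (V (n + 1) →L[ℝ] V (n + 1)) :=
  ∑ i, (EuclideanSpace.proj i : V (n + 1) →L[ℝ] ℝ).smulRight
    (Matrix.toEuclideanCLM (𝕜 := ℝ) (Mi G A θ i x))

/-- **CHRn.** Christoffel symbols of the cone metric.
Proof.  (b): `∑_l Chr G i j l G_lk = (∂_i G_jk + ∂_j G_ik - ∂_k G_ij)/2` (inverse matrix, G symmetric).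
(c): `∑_j G_jl x_j = x_l` differentiated: `∑_j ∂_i G_jl x_j = δ_il - G_il`; Euler: `∑_j x_j ∂_j G_il = 0`; so
`2 ∑_j Chr_ij^k x_j = ∑_l G^kl ((δ_il - G_il) + 0 - (δ_li - G_li)) = 0`.
(c'): `x_m = ∑_l G_ml x_l`, so `∑_m x_m Chr G j k m = ∑_l x_l (∂_j G_kl + ∂_k G_jl - ∂_l G_jk)/2
= ((δ_jk - G_jk) + (δ_kj - G_kj) - 0)/2`.
(d): the derivative of a 0-homogeneous function is (-1)-homogeneous.  (e): Cramer. -/
def CHRn : Prop :=
  ∀ (n : ℕ) (G : MF n), IsMetric G →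
    (∀ i j k x, Chr G i j k x = Chr G j i k x) ∧
    (∀ i j k x, x ≠ 0 → pd i (fun y => G y j k) x =
      ∑ l, Chr G i j l x * G x l k + ∑ l, Chr G i k l x * G x l j) ∧
    (∀ i k x, x ≠ 0 → ∑ j, Chr G i j k x * x j = 0) ∧
    (∀ j k x, x ≠ 0 → ∑ m, x m * Chr G j k m x = (if j = k then 1 else 0) - G x j k) ∧
    (∀ i j k (r : ℝ) x, 0 < r → x ≠ 0 → Chr G i j k (r • x) = r⁻¹ * Chr G i j k x) ∧
    (∀ i j k, ContDiffOn ℝ (⊤ : ℕ∞) (Chr G i j k) {0}ᶜ)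

/-- **CYCn.** Christoffel symbols of the cylinder metric `|x|⁻² G` (from CHRn if useful).
Proof.  conformal change with `φ = |x|⁻²`, `∂_i φ/φ = -2 x_i/|x|²`, and `∑_l G^kl x_l = x_k`. -/
def CYCn : Prop :=
  ∀ (n : ℕ) (G : MF n), IsMetric G → ∀ i j k x, x ≠ 0 →
    Chr (cyl G) i j k x = Chr G i j k x
      - (x i * (if j = k then 1 else 0) + x j * (if i = k then 1 else 0) - G x i j * x k) / ‖x‖ ^ 2

/-- **CYRn.** Curvature of the cylinder metric and of the cone metric (from CHRn, CYCn).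
Proof.  `Chr (cyl G) = C + N`, `N_ij^k = -(x_i δ_jk + x_j δ_ik - G_ij x_k)/s`, `s = |x|²` near x.  Then
R(cyl) - R(G) = (∂_i N_jk^l - ∂_j N_ik^l) + ∑_m (C_jk^m N_im^l + N_jk^m C_im^l - (i <-> j))
+ ∑_m (N_jk^m N_im^l - (i <-> j)).  With C_(l,jk) = ∑ C_jk^m G_ml, ∑ x_m C_jk^m = δ_jk - G_jk,
∑ C_im^l x_m = 0, ∂_i G_jk - ∂_j G_ik = C_(j,ik) - C_(i,jk):
first bracket: (1/s)(-δ_ik δ_jl + δ_jk δ_il + (C_(j,ik) - C_(i,jk)) x_l + G_jk δ_il - G_ik δ_jl)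
 + (2/s²)(x_i x_k δ_jl - x_j x_k δ_il - (x_i G_jk - x_j G_ik) x_l);
second: (1/s)(-(δ_jk - G_jk) δ_il + (δ_ik - G_ik) δ_jl + (C_(i,jk) - C_(j,ik)) x_l);
third: (1/s²)(x_j x_k δ_il - x_i x_k δ_jl + (x_i G_jk - x_j G_ik) x_l) - (1/s)(G_jk δ_il - G_ik δ_jl).
Sum = (1/s)(G_jk δ_il - G_ik δ_jl) + (1/s²)(x_i x_k δ_jl - x_j x_k δ_il - (x_i G_jk - x_j G_ik) x_l),
which is the claim expanded. -/
def CYRn : Prop :=
  ∀ (n : ℕ) (G : MF n), IsMetric G → ∀ i j k l x, x ≠ 0 →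
    Rup (cyl G) i j k l x = Rup G i j k l x
      + ((G x j k - x j * x k / ‖x‖ ^ 2) * ((if i = l then 1 else 0) - x i * x l / ‖x‖ ^ 2)
        - (G x i k - x i * x k / ‖x‖ ^ 2) * ((if j = l then 1 else 0) - x j * x l / ‖x‖ ^ 2))
        / ‖x‖ ^ 2

/-- **CONn.** `(Tm, Bm)` is a cone structure (from CHRn).
Proof.  Write t = θᵀ, a = Aᵀ (t a = a t = 1), Γ(u) = ∑ u_i Γ_i, B(u) = t Γ(u) a - (D_u t) a.
smooth, homogeneous: entries.  radT: `xᵀ θ θᵀ v = (G x)·v = x·v`.  radB: ∑ x_i Γ_i = 0 (CHRn (a),(c)) and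
Euler.  skew: θ B(u) θᵀ = G Γ(u) - θ (D_u θ)ᵀ, and G Γ(u) + Γ(u)ᵀ G - D_u (θ θᵀ) = 0 by CHRn (b).
tors: D_u T v - D_v T u + B(u) T v - B(v) T u = t (Γ(u) v - Γ(v) u) = 0. -/
def CONn : Prop :=
  ∀ (n : ℕ) (G A θ : MF n), Cofr G A θ → Cone (Tm θ) (Bm G A θ)

/-- **CURn.** Gauge covariance of the curvature (from CHRn).
Proof.  With t, a as above, t_i = ∂_i t, ∂_i a = - a t_i a, M_i = t Γ_i a - t_i a:
∂_i M_j - ∂_j M_i + [M_i, M_j] = t (∂_i Γ_j - ∂_j Γ_i + [Γ_i, Γ_j]) a (second derivatives of θ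
symmetric), and the matrix (∂_i Γ_j - ∂_j Γ_i + [Γ_i, Γ_j])_lk is Rup G i j k l. -/
def CURn : Prop :=
  ∀ (n : ℕ) (G A θ : MF n), Cofr G A θ → ∀ x, x ≠ 0 → ∀ u v : V (n + 1),
    Fc (Bm G A θ) x u v = Matrix.toEuclideanCLM (𝕜 := ℝ)
      ((θ x).transpose * Matrix.of (fun l k => ∑ i, ∑ j, Rup G i j k l x * u i * v j)
        * (A x).transpose)

/-- projection orthogonal to the radial direction, in the frame -/
noncomputable def Pf {n : ℕ} (A : MF n) (x : EE n) (a b : Fin (n + 1)) : ℝ :=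
  (if a = b then 1 else 0) - (∑ i, A x a i * x i) * (∑ i, A x b i * x i)

/-- the curvature of the cylinder metric in the frame `A` is `η`-close to that of the round one -/
def NearRound {n : ℕ} (G A : MF n) (η : ℝ) : Prop :=
  ∀ x, ‖x‖ = 1 → ∀ a b c d,
    |∑ i, ∑ j, ∑ k, ∑ l, Rm (cyl G) i j k l x * A x a i * A x b j * A x c k * A x d l
      - (Pf A x b c * Pf A x a d - Pf A x a c * Pf A x b d)| ≤ η

/-- **FCBn.** Curvature bound of the cone (from CYRn, CURn).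
Proof.  |x| = 1.  N(u,v) = θᵀ R(u,v) Aᵀ the matrix of CURn.  `∑_l G_ml A_dl = θ_md` (G = θ θᵀ, A θ = 1), so
N(A_a,A_b)_dc = ∑ Rup G i j k m A_ai A_bj A_ck θ_md = ∑ (∑_m Rup G i j k m G_ml) A_ai A_bj A_ck A_dl, and by
CYRn (`∑_m x_m G_ml = x_l`) this is the sum of NearRound minus the P terms:
`∑ (G_jk - x_j x_k) A_bj A_ck = P_bc`.  So |N(A_a,A_b)_dc| ≤ η.  u_i = ∑_a (θᵀu)_a A_ai, so
|N(u,v)_dc| ≤ η ∑_ab |(θᵀu)_a||(θᵀv)_b| ≤ η (n+1)² C0 ‖u‖‖v‖ (‖θᵀu‖² = ip G x u u), and the operator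
norm of a matrix is at most (n+1)² times the largest entry. -/
def FCBn : Prop :=
  ∀ (n : ℕ) (C0 η : ℝ) (G A θ : MF n), Cofr G A θ → 0 ≤ C0 → 0 ≤ η →
    (∀ x, x ≠ 0 → ∀ v : Fin (n + 1) → ℝ, ip G x v v ≤ C0 * ∑ i, v i ^ 2) → NearRound G A η →
    ∀ x, ‖x‖ = 1 → ∀ u v, ‖Fc (Bm G A θ) x u v‖ ≤ (((n : ℝ) + 1) ^ 4 * C0 * η) * ‖u‖ * ‖v‖

/-- **FFGn.** The volume bound in the language of CoreN (from FINn, CONn, FCBn).
Proof.  FINn with m = n + 1, T = Tm θ, B = Bm G A θ; ‖T x v‖² = ip G x v v; |det (T x)| = |det θ|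
= sqrt (det G) (`LinearMap.det` of `toEuclideanCLM` is the determinant of the matrix);
gvol G = (n+1) ∫_ball sqrt (det G). -/
def FFGn : Prop :=
  ∀ (n : ℕ) (c0 C0 : ℝ), 2 ≤ n → 0 < c0 → 0 < C0 → ∃ η : ℝ, 0 < η ∧
    ∀ G A θ : MF n, Cofr G A θ →
      (∀ x, x ≠ 0 → ∀ v : Fin (n + 1) → ℝ,
        c0 * ∑ i, v i ^ 2 ≤ ip G x v v ∧ ip G x v v ≤ C0 * ∑ i, v i ^ 2) →
      NearRound G A η →
      ((n : ℝ) + 1) * (volume (Metric.ball (0 : EE n) 1)).toReal / 4 ≤ gvol G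

end Pool.Agent.Helper64.RFn
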